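import Pool.Agent.N973.ND.LA2
import Pool.Agent.N916.GB.Stm

/-!
# Project KD (helper1): the natural density `c2 / 2`, statements

The definitions are those of project ND (helper973, `Pool/Agent/N973/ND/Stm.lean`): `D` runs over the
positive squarefree numbers `≡ 1` modulo `4` prime to `7`, and `Gd A b S` says that the linear system
attached to the set `S` of the prime factors of `D` has only the zero solution. The symbols `A` of the
primes of `ℚ(√-7)` are here an arbitrary function with the reciprocity law `RecA`; no bilinear bound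
for `A` is needed, because the symbols `nr p q` with `p` split and `q` inert and `1` modulo `4`
already make the form on the dual kernel uniform.
-/

set_option autoImplicit false
set_option linter.unusedVariables false

open scoped Classical

namespace Pool.Agent.L0h1.KD

open Finset
open Pool.Agent.Y703.CX (sm la jj XX eL zz kk S_SIE)
open Pool.Agent.Y703.CQ (nr sg c2 S_SYM S_C2)
open Pool.Agent.N973.ND (Pr m7 uu ty Cl SS SA kd Gv GR Gd Nd RecA S_NEG S_KD Wk)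
open Pool.Agent.N916.GB (HB ps S_BIL)

/-- the number of the large inert primes `1` modulo `4` -/
noncomputable def n0 (z : ℕ) (S : Finset ℕ) : ℕ := ((la z S).filter fun p => ty p = 0).card

/-- the regular sets -/
noncomputable def RG (X z H k V : ℕ) : Finset (Finset ℕ) :=
  (SS X).filter fun S => Set.InjOn (jj H) (la z S : Set ℕ) ∧ S.card ≤ k ∧
    (∏ p ∈ sm z S, p) * ∏ p ∈ la z S, XX H (jj H p) ≤ X ∧ 2 * (V : ℤ) ≤ kd S ∧
    3 * kd S + 3 * (V : ℤ) ≤ (n0 z S : ℤ)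

/-- BX: the count in a box; the type `τ` of the primes is fixed. -/
def S_BX : Prop := ∀ (A : ℕ → ℕ → ZMod 2) (b : ℕ → ZMod 2) (ι : Type) [Fintype ι]
  [LinearOrder ι] (τ : ι → ℕ) (C : ι → Finset ℕ) (X : ι → ℕ) (κ : ℝ) (S₀ : Finset ℕ) (m V : ℕ),
  RecA A → 0 ≤ κ → (∀ i, (C i).card ≤ X i) → HB C X κ → (∀ v ∈ S₀, Pr v) →
  (∀ i, ∀ p ∈ C i, Pr p ∧ p ∉ S₀ ∧ ty p = τ i) →
  (∀ i l, i ≠ l → Disjoint (C i) (C l)) →
  kd S₀ + ((univ.filter fun i => τ i = 3).card : ℤ) - ((univ.filter fun i => τ i = 1).card : ℤ) =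
    2 * m → 1 ≤ V → V ≤ m → 6 * m + 3 * V ≤ (univ.filter fun i => τ i = 0).card →
  |(((Fintype.piFinset C).filter fun p => Nd S₀ (univ.image p) ∧
        Gd A b (S₀ ∪ univ.image p)).card : ℝ) -
      c2 * (((Fintype.piFinset C).filter fun p => Nd S₀ (univ.image p)).card : ℝ)| ≤
    3 * (1 / 2 : ℝ) ^ V * (((Fintype.piFinset C).filter fun p => Nd S₀ (univ.image p)).card : ℝ) +
    3 * 2 ^ ((2 * S₀.card + 1) * Fintype.card ι + (ps ι).card) * (κ * ∏ j, (X j : ℝ))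

/-- KY: the sum over the boxes. -/
def S_KY : Prop := ∃ C : ℝ, 1 ≤ C ∧ ∀ (A : ℕ → ℕ → ZMod 2) (b : ℕ → ZMod 2), RecA A →
  ∀ (X z H k V N : ℕ) (κ : ℝ), 1 ≤ X → 1 ≤ H → 1 ≤ z → 1 ≤ V → 0 ≤ κ → C ≤ κ ^ 12 * z →
  (H : ℝ) * Real.log X < N →
  |(((RG X z H k V).filter fun S => Nd (sm z S) (la z S) ∧ Gd A b S).card : ℝ) -
      c2 * (((RG X z H k V).filter fun S => Nd (sm z S) (la z S)).card : ℝ)| ≤
    3 * (1 / 2 : ℝ) ^ V * ((RG X z H k V).card : ℝ) +
    (9 * N + 9 : ℝ) ^ k * (3 ^ (9 * k ^ 2 + 9) * κ) * (X * (1 + Real.log X))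

/-- KEY: the passage from a box to the sum over the boxes. -/
def S_KEY : Prop := S_BIL → S_BX → S_KY

/-- FEW: few sets have few large inert primes `1` modulo `4` compared with `kd`. -/
def S_FEW : Prop := ∀ (V : ℕ) (ε : ℝ), 0 < ε → ∃ X₀ : ℕ, ∀ X : ℕ, X₀ ≤ X →
  (((SA X).filter fun S => (n0 (zz X) S : ℤ) < 3 * kd S + V).card : ℝ) ≤ ε * X

/-- BAD: few sets have degenerate labels. -/
def S_BAD : Prop := ∀ ε : ℝ, 0 < ε → ∃ X₀ : ℕ, ∀ X : ℕ, X₀ ≤ X →
  (((SA X).filter fun S => S.card ≤ kk X ∧ ¬ Nd (sm (zz X) S) (la (zz X) S)).card : ℝ) ≤ ε * X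

/-- FINAL: the natural density -/
def S_DEN : Prop := ∀ (A : ℕ → ℕ → ZMod 2) (b : ℕ → ZMod 2), RecA A → Filter.Tendsto
  (fun X : ℕ => (((Icc 1 X).filter fun D => Squarefree D ∧ D % 4 = 1 ∧ ¬ 7 ∣ D ∧
      Gd A b D.primeFactors).card : ℝ) /
    (((Icc 1 X).filter fun D => Squarefree D ∧ D % 4 = 1 ∧ ¬ 7 ∣ D).card : ℝ))
  Filter.atTop (nhds (c2 / 2))

end Pool.Agent.L0h1.KD
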