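import Pool.Agent.L0h1.KD.LB

/-!
# Project KD (helper1): the average over the symbols of the pairs (split, inert `1` modulo `4`)
-/

set_option autoImplicit false
set_option linter.unusedSectionVars false
set_option linter.unusedVariables false
set_option maxHeartbeats 1000000

open scoped Classical

namespace Pool.Agent.L0h1.KD

open Finset
open Pool.Agent.N973.ND

theorem am_nonneg (m : ℕ) : 0 ≤ am m := by
  unfold am
  refine prod_nonneg fun i _ => ?_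
  have : (1 / 2 : ℝ) ^ (2 * i + 1) ≤ 1 := pow_le_one₀ (by norm_num) (by norm_num)
  linarith

theorem am_le (m : ℕ) : am m ≤ 1 := by
  unfold am
  refine prod_le_one (fun i _ => ?_) fun i _ => ?_
  · have : (1 / 2 : ℝ) ^ (2 * i + 1) ≤ 1 := pow_le_one₀ (by norm_num) (by norm_num)
    linarith
  · have : (0 : ℝ) ≤ (1 / 2 : ℝ) ^ (2 * i + 1) := by positivity
    linarith

section
variable {U J : Type} [Fintype U] [Fintype J] [LinearOrder J]

/-- the change given by the free symbols -/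
noncomputable def xe {Jk Lc : Finset J} (ε : ↥(Jk ×ˢ Lc) → ZMod 2) (k l : J) : ZMod 2 :=
  if h : (k, l) ∈ Jk ×ˢ Lc then ε ⟨(k, l), h⟩ else 0

theorem pt_pt (N : U ⊕ J → U ⊕ J → ZMod 2) (δ δ' : J → J → ZMod 2) :
    pt (pt N δ) δ' = pt N (fun k l => δ k l + δ' k l) := by
  funext i j
  rcases i with u | k <;> rcases j with v | l
  · rfl
  · rfl
  · rfl
  · show N (Sum.inr k) (Sum.inr l) + δ k l + δ' k l = N (Sum.inr k) (Sum.inr l) + (δ k l + δ' k l)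
    rw [add_assoc]

/-- the first condition -/
def E1 (Sp Pc : Finset (U ⊕ J)) (N : U ⊕ J → U ⊕ J → ZMod 2) (b : U ⊕ J → ZMod 2) : Prop :=
  ∀ x, Wk Sp Pc N b x → ∀ j, x j = 0

/-- the difference of the two indicators -/
noncomputable def ff (Sp Pc : Finset (U ⊕ J)) (E : U ⊕ J → U ⊕ J → ZMod 2) (b : U ⊕ J → ZMod 2)
    (m : ℕ) (N : U ⊕ J → U ⊕ J → ZMod 2) : ℝ :=
  (if Gv Sp Pc N E b then 1 else 0) - am m * (if E1 Sp Pc N b then 1 else 0)

variable {Sp Pc : Finset (U ⊕ J)} {Jk Lc : Finset J} {N E : U ⊕ J → U ⊕ J → ZMod 2}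
  {b : U ⊕ J → ZMod 2} {m q : ℕ}

theorem ff_le (N : U ⊕ J → U ⊕ J → ZMod 2) : |ff Sp Pc E b m N| ≤ 1 := by
  unfold ff
  have h1 := am_nonneg m
  have h2 := am_le m
  split_ifs <;> rw [abs_le] <;> constructor <;> linarith

theorem ff_zero (h : ¬ E1 Sp Pc N b) : ff Sp Pc E b m N = 0 := by
  unfold ff
  rw [if_neg h, if_neg fun h' => h h'.1, mul_zero, sub_zero]

/-- the sum over the moves -/
theorem step1 (hALT : S_ALT) {α β γ : Fin q → J} (hα : Function.Injective α)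
    (hβ : Function.Injective β) (hγ : Function.Injective γ)
    (hγβ : ∀ τ τ', γ τ ≠ β τ') (hγα : ∀ τ τ', γ τ ≠ α τ') (hαβ : ∀ τ τ', α τ ≠ β τ')
    (hαP : ∀ τ, Sum.inr (α τ) ∉ Pc) (hβP : ∀ τ, Sum.inr (β τ) ∉ Pc)
    (hγP : ∀ τ, Sum.inr (γ τ) ∉ Pc)
    (hE : ∀ i ∈ Sp, ∀ j ∈ Sp, E i j = E j i) (hE0 : ∀ i, E i i = 0)
    (hcard : Sp.card = Pc.card + 2 * m)
    (hinj : ∀ s, Zk Sp Pc N b s → (∀ k ∈ Jk, s (Sum.inr k) = 0) → ∀ j, s j = 0) :
    |∑ a : Fin q → J → ZMod 2, ∑ v : Fin q → J → ZMod 2,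
      ff Sp Pc E b m (pt (pt N (mv Jk γ β a)) (mv Jk α β v))| * 2 ^ q ≤
      2 ^ (2 * m) * (Fintype.card (Fin q → J → ZMod 2) : ℝ) ^ 2 := by
  by_cases h1 : E1 Sp Pc N b
  · set K : ℝ := (Fintype.card (Fin q → J → ZMod 2) : ℝ) with hK
    have hK0 : 0 ≤ K := Nat.cast_nonneg _
    set Bd := univ.filter fun a : Fin q → J → ZMod 2 =>
      ¬ ∀ s, Zk Sp Pc (pt N (mv Jk γ β a)) b s →
        (∀ τ, Ph (pt N (mv Jk γ β a)) b s (Sum.inr (α τ)) +
          Ph (pt N (mv Jk γ β a)) b s (Sum.inr (β τ)) = 0) → ∀ j, s j = 0 with hBd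
    have hb := astep (Jk := Jk) hβ hγ hγβ hγα hαβ hγP hβP h1 hcard hinj
    have hb' : (Bd.card : ℝ) * 2 ^ q ≤ 2 ^ (2 * m) * K := by
      rw [hK]
      exact_mod_cast hb
    have hin : ∀ a : Fin q → J → ZMod 2, |∑ v : Fin q → J → ZMod 2,
        ff Sp Pc E b m (pt (pt N (mv Jk γ β a)) (mv Jk α β v))| ≤ if a ∈ Bd then K else 0 := by
      intro a
      split_ifs with ha
      · refine (abs_sum_le_sum_abs _ _).trans ?_
        refine (sum_le_card_nsmul _ _ 1 fun v _ => ff_le _).trans (le_of_eq ?_)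
        rw [card_univ, nsmul_eq_mul, mul_one]
      · have hgood : ∀ s, Zk Sp Pc (pt N (mv Jk γ β a)) b s →
            (∀ τ, Ph (pt N (mv Jk γ β a)) b s (Sum.inr (α τ)) +
              Ph (pt N (mv Jk γ β a)) b s (Sum.inr (β τ)) = 0) → ∀ j, s j = 0 := by
          by_contra hc
          exact ha (mem_filter.2 ⟨mem_univ _, hc⟩)
        have hE1a : ∀ x, Wk Sp Pc (pt N (mv Jk γ β a)) b x → ∀ j, x j = 0 :=
          fun x hx => h1 x ((Wk_mv N hγP hβP a b x).1 hx)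
        have h2 := vstep hALT hα hβ hαβ hαP hβP hE hE0 hE1a hcard
          (fun s hs => hinj s ((Zk_mv N hγP hβP a b s).1 hs)) hgood
        have h3 : ∀ v : Fin q → J → ZMod 2,
            ff Sp Pc E b m (pt (pt N (mv Jk γ β a)) (mv Jk α β v)) =
            (if Gv Sp Pc (pt (pt N (mv Jk γ β a)) (mv Jk α β v)) E b then (1 : ℝ) else 0) -
              am m := by
          intro v
          unfold ff
          rw [if_pos (show E1 Sp Pc (pt (pt N (mv Jk γ β a)) (mv Jk α β v)) b from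
            fun x hx => hE1a x ((Wk_mv (pt N (mv Jk γ β a)) hαP hβP v b x).1 hx)), mul_one]
        rw [sum_congr rfl fun v _ => h3 v, sum_sub_distrib, sum_const, card_univ, nsmul_eq_mul,
          ← hK]
        have h4 : ∑ v : Fin q → J → ZMod 2,
            (if Gv Sp Pc (pt (pt N (mv Jk γ β a)) (mv Jk α β v)) E b then (1 : ℝ) else 0) =
            ((univ.filter fun v : Fin q → J → ZMod 2 =>
              Gv Sp Pc (pt (pt N (mv Jk γ β a)) (mv Jk α β v)) E b).card : ℝ) := by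
          rw [card_filter]
          push_cast
          rfl
        rw [h4, h2, ← hK, mul_comm, sub_self, abs_zero]
    have hsum : |∑ a : Fin q → J → ZMod 2, ∑ v : Fin q → J → ZMod 2,
        ff Sp Pc E b m (pt (pt N (mv Jk γ β a)) (mv Jk α β v))| ≤ Bd.card * K := by
      refine (abs_sum_le_sum_abs _ _).trans ?_
      refine (sum_le_sum fun a _ => hin a).trans (le_of_eq ?_)
      rw [← sum_filter, sum_const, nsmul_eq_mul, filter_mem_eq_inter, univ_inter]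
    calc _ ≤ (Bd.card * K) * 2 ^ q := mul_le_mul_of_nonneg_right hsum (by positivity)
      _ = (Bd.card * 2 ^ q) * K := by ring
      _ ≤ (2 ^ (2 * m) * K) * K := mul_le_mul_of_nonneg_right hb' hK0
      _ = 2 ^ (2 * m) * K ^ 2 := by ring
  · have h2 : ∑ a : Fin q → J → ZMod 2, ∑ v : Fin q → J → ZMod 2,
        ff Sp Pc E b m (pt (pt N (mv Jk γ β a)) (mv Jk α β v)) = 0 := by
      refine sum_eq_zero fun a _ => sum_eq_zero fun v _ => ff_zero fun h3 => h1 fun x hx => ?_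
      exact h3 x ((Wk_mv (pt N (mv Jk γ β a)) hαP hβP v b x).2 ((Wk_mv N hγP hβP a b x).2 hx))
    rw [h2, abs_zero, zero_mul]
    positivity

/-- a change supported on the free pairs comes from free symbols -/
theorem xe_res (δ : J → J → ZMod 2) (hδ : ∀ k l, (k, l) ∉ Jk ×ˢ Lc → δ k l = 0)
    (ε : ↥(Jk ×ˢ Lc) → ZMod 2) :
    (fun k l => xe ε k l + δ k l) = xe (ε + fun e => δ e.1.1 e.1.2) := by
  funext k l
  unfold xe
  by_cases h : (k, l) ∈ Jk ×ˢ Lc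
  · rw [dif_pos h, dif_pos h]
    rfl
  · rw [dif_neg h, dif_neg h, hδ k l h, add_zero]

theorem mv_supp {α β : Fin q → J} (hα : ∀ τ, α τ ∈ Lc) (hβ : ∀ τ, β τ ∈ Lc)
    (v : Fin q → J → ZMod 2) (k l : J) (h : (k, l) ∉ Jk ×ˢ Lc) : mv Jk α β v k l = 0 := by
  unfold mv
  by_cases hk : k ∈ Jk
  · rw [if_pos hk]
    have hl : l ∉ Lc := fun hl => h (mem_product.2 ⟨hk, hl⟩)
    refine sum_eq_zero fun τ _ => ?_
    rw [if_neg fun h' => hl (by rw [h']; exact hα τ), if_neg fun h' => hl (by rw [h']; exact hβ τ),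
      add_zero]
  · rw [if_neg hk]

/-- **the average over the free symbols** -/
theorem la2 (hALT : S_ALT) (hLcP : ∀ l ∈ Lc, Sum.inr l ∉ Pc)
    (hE : ∀ i ∈ Sp, ∀ j ∈ Sp, E i j = E j i) (hE0 : ∀ i, E i i = 0)
    (hcard : Sp.card = Pc.card + 2 * m)
    (hnd : ∀ w : U ⊕ J → ZMod 2, (∀ i, i ∉ Sp → w i = 0) → (∀ k ∈ Jk, w (Sum.inr k) = 0) →
      (∃ i, w i ≠ 0) → ∃ j ∈ Pc, w j = 0 ∧ ∑ i, w i * N i j ≠ 0)
    (hq : 3 * q ≤ Lc.card) :
    |∑ ε : ↥(Jk ×ˢ Lc) → ZMod 2, ff Sp Pc E b m (pt N (xe ε))| * 2 ^ q ≤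
      2 ^ (2 * m) * 2 ^ Fintype.card ↥(Jk ×ˢ Lc) := by
  -- the columns
  set e := Lc.equivFin.symm with he
  have hlt : ∀ (c : Fin 3) (τ : Fin q), q * c + τ < Lc.card := by
    intro c τ
    have h1 := c.2
    have h2 := τ.2
    have h3 : q * (c : ℕ) ≤ q * 2 := Nat.mul_le_mul_left _ (by omega)
    omega
  set φ : Fin 3 → Fin q → J := fun c τ => (e ⟨q * c + τ, hlt c τ⟩ : J) with hφ
  have hφL : ∀ c τ, φ c τ ∈ Lc := fun c τ => (e ⟨q * c + τ, hlt c τ⟩).2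
  have hφi : ∀ c c' τ τ', φ c τ = φ c' τ' → c = c' ∧ τ = τ' := by
    intro c c' τ τ' h
    have h1 : q * (c : ℕ) + τ = q * c' + τ' := by
      have h2 := e.injective (Subtype.ext h)
      simpa using h2
    have h2 := τ.2
    have h3 := τ'.2
    have hq0 : 0 < q := by omega
    have h4 : (q * (c : ℕ) + τ) / q = c := by
      rw [Nat.mul_add_div hq0, Nat.div_eq_of_lt h2, add_zero]
    have h5 : (q * (c' : ℕ) + τ') / q = c' := by
      rw [Nat.mul_add_div hq0, Nat.div_eq_of_lt h3, add_zero]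
    have h6 : (c : ℕ) = c' := by rw [← h4, h1, h5]
    refine ⟨Fin.ext h6, Fin.ext ?_⟩
    rw [h6] at h1
    omega
  have hne : ∀ c c' : Fin 3, c ≠ c' → ∀ τ τ', φ c τ ≠ φ c' τ' := fun c c' hc τ τ' h =>
    hc (hφi _ _ _ _ h).1
  have hinjφ : ∀ c, Function.Injective (φ c) := fun c τ τ' h => (hφi _ _ _ _ h).2
  set K : ℝ := (Fintype.card (Fin q → J → ZMod 2) : ℝ) with hK
  have hK0 : 0 < K := by
    rw [hK]
    exact_mod_cast Fintype.card_pos
  -- the sum over the moves for each change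
  have hinj : ∀ ε : ↥(Jk ×ˢ Lc) → ZMod 2, ∀ s, Zk Sp Pc (pt N (xe ε)) b s →
      (∀ k ∈ Jk, s (Sum.inr k) = 0) → ∀ j, s j = 0 := by
    intro ε s hs hk
    by_contra hc
    push Not at hc
    obtain ⟨j, hj, hsj, hne⟩ := hnd s hs.1 hk hc
    apply hne
    have h1 := hs.2 j hj
    rcases j with u | l
    · rw [Ph_inl] at h1
      unfold Ph at h1
      rwa [hsj, mul_zero, add_zero] at h1
    · rw [Ph_inr] at h1
      have h2 : ∑ k, s (Sum.inr k) * xe ε k l = 0 := by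
        refine sum_eq_zero fun k _ => ?_
        unfold xe
        split_ifs with h
        · rw [hk k (mem_product.1 h).1, zero_mul]
        · rw [mul_zero]
      rw [h2, hsj, mul_zero, add_zero, add_zero] at h1
      unfold Ph at h1
      rwa [hsj, mul_zero, add_zero] at h1
  have h1 : ∀ ε : ↥(Jk ×ˢ Lc) → ZMod 2, |∑ a : Fin q → J → ZMod 2, ∑ v : Fin q → J → ZMod 2,
      ff Sp Pc E b m (pt (pt (pt N (xe ε)) (mv Jk (φ 0) (φ 2) a)) (mv Jk (φ 1) (φ 2) v))| * 2 ^ q ≤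
      2 ^ (2 * m) * K ^ 2 := fun ε =>
    step1 hALT (hinjφ 1) (hinjφ 2) (hinjφ 0) (hne 0 2 (by decide)) (hne 0 1 (by decide))
      (hne 1 2 (by decide)) (fun τ => hLcP _ (hφL _ _)) (fun τ => hLcP _ (hφL _ _))
      (fun τ => hLcP _ (hφL _ _)) hE hE0 hcard (hinj ε)
  -- invariance
  have h2 : ∀ a v : Fin q → J → ZMod 2, ∑ ε : ↥(Jk ×ˢ Lc) → ZMod 2,
      ff Sp Pc E b m (pt (pt (pt N (xe ε)) (mv Jk (φ 0) (φ 2) a)) (mv Jk (φ 1) (φ 2) v)) =
      ∑ ε : ↥(Jk ×ˢ Lc) → ZMod 2, ff Sp Pc E b m (pt N (xe ε)) := by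
    intro a v
    set d : ↥(Jk ×ˢ Lc) → ZMod 2 := (fun e => mv Jk (φ 0) (φ 2) a e.1.1 e.1.2) +
      fun e => mv Jk (φ 1) (φ 2) v e.1.1 e.1.2 with hd
    have h3 : ∀ ε : ↥(Jk ×ˢ Lc) → ZMod 2,
        pt (pt (pt N (xe ε)) (mv Jk (φ 0) (φ 2) a)) (mv Jk (φ 1) (φ 2) v) = pt N (xe (ε + d)) := by
      intro ε
      rw [pt_pt N (xe ε), xe_res _ (mv_supp (fun τ => hφL 0 τ) (fun τ => hφL 2 τ) a), pt_pt,
        xe_res _ (mv_supp (fun τ => hφL 1 τ) (fun τ => hφL 2 τ) v), add_assoc]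
    simp only [h3]
    exact Equiv.sum_comp (Equiv.addRight d) fun ε => ff Sp Pc E b m (pt N (xe ε))
  have h3 : K ^ 2 * ∑ ε : ↥(Jk ×ˢ Lc) → ZMod 2, ff Sp Pc E b m (pt N (xe ε)) =
      ∑ ε : ↥(Jk ×ˢ Lc) → ZMod 2, ∑ a : Fin q → J → ZMod 2, ∑ v : Fin q → J → ZMod 2,
      ff Sp Pc E b m (pt (pt (pt N (xe ε)) (mv Jk (φ 0) (φ 2) a)) (mv Jk (φ 1) (φ 2) v)) := by
    rw [sum_comm]
    have h4 : ∀ a : Fin q → J → ZMod 2, ∑ ε : ↥(Jk ×ˢ Lc) → ZMod 2,
        ∑ v : Fin q → J → ZMod 2, ff Sp Pc E b m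
          (pt (pt (pt N (xe ε)) (mv Jk (φ 0) (φ 2) a)) (mv Jk (φ 1) (φ 2) v)) =
        K * ∑ ε : ↥(Jk ×ˢ Lc) → ZMod 2, ff Sp Pc E b m (pt N (xe ε)) := by
      intro a
      rw [sum_comm, sum_congr rfl fun v _ => h2 a v, sum_const, card_univ, nsmul_eq_mul]
    rw [sum_congr rfl fun a _ => h4 a, sum_const, card_univ, nsmul_eq_mul]
    ring
  have h4 : K ^ 2 * (|∑ ε : ↥(Jk ×ˢ Lc) → ZMod 2, ff Sp Pc E b m (pt N (xe ε))| * 2 ^ q) ≤
      K ^ 2 * (2 ^ (2 * m) * 2 ^ Fintype.card ↥(Jk ×ˢ Lc)) := by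
    have e1 : K ^ 2 * (|∑ ε : ↥(Jk ×ˢ Lc) → ZMod 2, ff Sp Pc E b m (pt N (xe ε))| * 2 ^ q) =
        |K ^ 2 * ∑ ε : ↥(Jk ×ˢ Lc) → ZMod 2, ff Sp Pc E b m (pt N (xe ε))| * 2 ^ q := by
      rw [abs_mul, abs_of_nonneg (by positivity : (0 : ℝ) ≤ K ^ 2), mul_assoc]
    rw [e1, h3]
    have h5 := abs_sum_le_sum_abs (fun ε : ↥(Jk ×ˢ Lc) → ZMod 2 =>
      ∑ a : Fin q → J → ZMod 2, ∑ v : Fin q → J → ZMod 2,
      ff Sp Pc E b m (pt (pt (pt N (xe ε)) (mv Jk (φ 0) (φ 2) a)) (mv Jk (φ 1) (φ 2) v))) univ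
    refine (mul_le_mul_of_nonneg_right h5 (by positivity)).trans ?_
    rw [sum_mul]
    refine (sum_le_card_nsmul _ _ _ fun ε _ => h1 ε).trans (le_of_eq ?_)
    rw [card_univ, Fintype.card_fun, ZMod.card, nsmul_eq_mul]
    push_cast
    ring
  exact le_of_mul_le_mul_left h4 (by positivity)

end

end Pool.Agent.L0h1.KD
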