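import Pool.Agent.Y356.CQ.EQ
import Pool.Agent.N916.GB.Stm

/-!
# Project KD (helper1): conditional equidistribution

The symbols of the pairs in `Jk ×ˢ Lc` are equidistributed, also conditionally on the primes with
indices outside `Lc`.
-/

set_option autoImplicit false
set_option linter.unusedVariables false

open scoped Classical

namespace Pool.Agent.L0h1.KD

open Finset
open Pool.Agent.Y703.CQ (nr sg)
open Pool.Agent.Y356.CQ (resample2 lc lc_split sg_add sg_sum sg_zero norm_sg sum_sg)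
open Pool.Agent.N916.GB (HB)

section
variable {ι : Type} [Fintype ι] [DecidableEq ι]

/-- a sum which is bilinear in two of the primes -/
theorem pair_sum {C : ι → Finset ℕ} {X : ι → ℕ} {κ : ℝ} (hκ : 0 ≤ κ)
    (hC : ∀ i, (C i).card ≤ X i) (HBh : HB C X κ) {i l : ι} (hil : i ≠ l)
    (G : (ι → ℕ) → ℂ)
    (hG : ∀ p, ∃ c d : ℕ → ℂ, (∀ x, ‖c x‖ ≤ 1) ∧ (∀ y, ‖d y‖ ≤ 1) ∧
      ∀ x y, G (Function.update (Function.update p i x) l y) = c x * d y * sg (nr x y)) :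
    ‖∑ p ∈ Fintype.piFinset C, G p‖ ≤ κ * ∏ j, (X j : ℝ) := by
  have hpos : 0 ≤ κ * ∏ j, (X j : ℝ) :=
    mul_nonneg hκ (Finset.prod_nonneg fun j _ => Nat.cast_nonneg _)
  by_cases hemp : (C i).card = 0 ∨ (C l).card = 0
  · have h0 : Fintype.piFinset C = ∅ := by
      rcases hemp with h | h
      · rw [Finset.card_eq_zero] at h
        exact Fintype.piFinset_eq_empty.2 ⟨i, h⟩
      · rw [Finset.card_eq_zero] at h
        exact Fintype.piFinset_eq_empty.2 ⟨l, h⟩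
    rw [h0, Finset.sum_empty, norm_zero]
    exact hpos
  rw [not_or] at hemp
  have hci : (0 : ℝ) < (C i).card := by exact_mod_cast Nat.pos_of_ne_zero hemp.1
  have hcl : (0 : ℝ) < (C l).card := by exact_mod_cast Nat.pos_of_ne_zero hemp.2
  have h1 := resample2 C i l G
  have h2 : ∀ p : ι → ℕ, ‖∑ x ∈ C i, ∑ y ∈ C l,
      G (Function.update (Function.update p i x) l y)‖ ≤ κ * (X i * X l) := by
    intro p
    obtain ⟨c, d, hc, hd, huv⟩ := hG p
    refine le_trans (le_of_eq ?_) (HBh i l hil c d hc hd)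
    congr 1
    exact Finset.sum_congr rfl fun x _ => Finset.sum_congr rfl fun y _ => huv x y
  have h3 : (C i).card * ((C l).card * ‖∑ p ∈ Fintype.piFinset C, G p‖) ≤
      (∏ j, ((C j).card : ℝ)) * (κ * (X i * X l)) := by
    have e : (C i).card * ((C l).card * ‖∑ p ∈ Fintype.piFinset C, G p‖) =
        ‖((C i).card : ℂ) * ((C l).card * ∑ p ∈ Fintype.piFinset C, G p)‖ := by
      rw [norm_mul, norm_mul, Complex.norm_natCast, Complex.norm_natCast]
    rw [e, ← h1]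
    refine (norm_sum_le _ _).trans ?_
    refine (Finset.sum_le_sum fun p _ => h2 p).trans ?_
    rw [Finset.sum_const, nsmul_eq_mul, Fintype.card_piFinset]
    push_cast
    exact le_rfl
  have h4 : ∏ j, ((C j).card : ℝ) = (C i).card * ((C l).card *
      ∏ j ∈ (univ.erase i).erase l, ((C j).card : ℝ)) := by
    rw [← Finset.mul_prod_erase univ _ (Finset.mem_univ i),
      ← Finset.mul_prod_erase (univ.erase i) _ (Finset.mem_erase.2 ⟨hil.symm, Finset.mem_univ l⟩)]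
  have h5 : ∏ j, (X j : ℝ) = X i * (X l * ∏ j ∈ (univ.erase i).erase l, (X j : ℝ)) := by
    rw [← Finset.mul_prod_erase univ _ (Finset.mem_univ i),
      ← Finset.mul_prod_erase (univ.erase i) _ (Finset.mem_erase.2 ⟨hil.symm, Finset.mem_univ l⟩)]
  rw [h4, mul_assoc, mul_assoc] at h3
  have h6 := le_of_mul_le_mul_left (le_of_mul_le_mul_left h3 hci) hcl
  refine h6.trans ?_
  have h7 : ∏ j ∈ (univ.erase i).erase l, ((C j).card : ℝ) ≤
      ∏ j ∈ (univ.erase i).erase l, (X j : ℝ) :=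
    Finset.prod_le_prod (fun _ _ => Nat.cast_nonneg _) fun j _ => by exact_mod_cast hC j
  rw [h5]
  calc (∏ j ∈ (univ.erase i).erase l, ((C j).card : ℝ)) * (κ * (X i * X l)) ≤
        (∏ j ∈ (univ.erase i).erase l, (X j : ℝ)) * (κ * (X i * X l)) := by
        gcongr
    _ = κ * (X i * (X l * ∏ j ∈ (univ.erase i).erase l, (X j : ℝ))) := by ring

end

/-- the detection of one vector -/
theorem detect {E : Type} [Fintype E] [DecidableEq E] (a b : E → ZMod 2) :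
    ∑ γ : E → ZMod 2, sg (∑ e : E, γ e * (b e - a e)) =
      if b = a then (2 : ℂ) ^ Fintype.card E else 0 := by
  have h1 : ∑ γ : E → ZMod 2, sg (∑ e : E, γ e * (b e - a e)) =
      ∏ e : E, ∑ c : ZMod 2, sg (c * (b e - a e)) := by
    rw [Finset.prod_univ_sum, Fintype.piFinset_univ]
    refine Finset.sum_congr rfl fun γ _ => ?_
    rw [sg_sum]
  rw [h1]
  simp only [sum_sg]
  split_ifs with h
  · rw [Finset.prod_congr rfl (g := fun _ => (2 : ℂ)), Finset.prod_const, Finset.card_univ]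
    intro e _
    rw [if_pos]
    rw [h, sub_self]
  · have h2 : ∃ e, b e ≠ a e := by
      by_contra h'
      push Not at h'
      exact h (funext h')
    obtain ⟨e, he⟩ := h2
    refine Finset.prod_eq_zero (Finset.mem_univ e) ?_
    rw [if_neg]
    exact sub_ne_zero.2 he

section
variable {ι : Type} [Fintype ι] [DecidableEq ι] {Jk Lc : Finset ι}

/-- the extension by zero -/
theorem sum_ex (γ : ↥(Jk ×ˢ Lc) → ZMod 2) (p : ι → ℕ) :
    ∑ e : ↥(Jk ×ˢ Lc), γ e * nr (p e.1.1) (p e.1.2) =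
      lc (fun e => if h : e ∈ Jk ×ˢ Lc then γ ⟨e, h⟩ else 0) p := by
  unfold lc
  rw [← Finset.sum_subset (Finset.subset_univ (Jk ×ˢ Lc))]
  · rw [← Finset.sum_coe_sort (Jk ×ˢ Lc)]
    refine Finset.sum_congr rfl fun e _ => ?_
    simp only
    rw [dif_pos e.2]
  · intro e _ he
    simp only
    rw [dif_neg he, zero_mul]

theorem norm_S {C : ι → Finset ℕ} {X : ι → ℕ} {κ : ℝ} (hκ : 0 ≤ κ)
    (hC : ∀ i, (C i).card ≤ X i) (HBh : HB C X κ) (hJL : Disjoint Jk Lc)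
    (f : (ι → ℕ) → ℂ) (hf1 : ∀ p, ‖f p‖ ≤ 1)
    (hf2 : ∀ p p' : ι → ℕ, (∀ i, i ∉ Lc → p i = p' i) → f p = f p')
    (γ : ↥(Jk ×ˢ Lc) → ZMod 2) (hγ : γ ≠ 0) :
    ‖∑ p ∈ Fintype.piFinset C, f p * sg (∑ e : ↥(Jk ×ˢ Lc), γ e * nr (p e.1.1) (p e.1.2))‖ ≤
      κ * ∏ j, (X j : ℝ) := by
  obtain ⟨e, he⟩ : ∃ e, γ e ≠ 0 := by
    by_contra h
    push Not at h
    exact hγ (funext h)
  obtain ⟨⟨i, l⟩, hil0⟩ := e
  obtain ⟨hi, hl⟩ := Finset.mem_product.1 hil0
  simp only at hi hl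
  have hil : i ≠ l := fun h => (Finset.disjoint_left.1 hJL) hi (h ▸ hl)
  set g : ι × ι → ZMod 2 := fun e => if h : e ∈ Jk ×ˢ Lc then γ ⟨e, h⟩ else 0 with hg
  have hg1 : g (i, l) = 1 := by
    have h : ∀ x : ZMod 2, x ≠ 0 → x = 1 := by decide
    rw [hg]
    simp only
    rw [dif_pos hil0]
    exact h _ he
  have hg2 : g (l, i) = 0 := by
    rw [hg]
    simp only
    rw [dif_neg]
    intro h
    exact (Finset.disjoint_left.1 hJL) (Finset.mem_product.1 h).1 hl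
  refine pair_sum hκ hC HBh hil _ fun p => ?_
  obtain ⟨u, v, huv⟩ := lc_split g hil p
  refine ⟨fun x => f (Function.update p i x) * sg (u x), fun y => sg (v y), fun x => ?_,
    fun y => (norm_sg _).le, fun x y => ?_⟩
  · rw [norm_mul, norm_sg, mul_one]
    exact hf1 _
  · rw [sum_ex, huv x y, hg1, hg2, zero_mul, add_zero, one_mul, sg_add, sg_add]
    have h1 : f (Function.update (Function.update p i x) l y) = f (Function.update p i x) := by
      refine hf2 _ _ fun j hj => ?_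
      rw [Function.update_of_ne (fun h => hj (by rw [h]; exact hl))]
    rw [h1]
    ring

/-- **conditional equidistribution** -/
theorem eqc {C : ι → Finset ℕ} {X : ι → ℕ} {κ : ℝ} (hκ : 0 ≤ κ)
    (hC : ∀ i, (C i).card ≤ X i) (HBh : HB C X κ) (hJL : Disjoint Jk Lc)
    (F : (ι → ℕ) → (↥(Jk ×ˢ Lc) → ZMod 2) → ℂ) (hF1 : ∀ p ε, ‖F p ε‖ ≤ 1)
    (hF2 : ∀ p p' : ι → ℕ, (∀ i, i ∉ Lc → p i = p' i) → F p = F p') :
    ‖∑ p ∈ Fintype.piFinset C, (F p (fun e => nr (p e.1.1) (p e.1.2)) -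
      (∑ ε, F p ε) / 2 ^ Fintype.card ↥(Jk ×ˢ Lc))‖ ≤
      2 ^ Fintype.card ↥(Jk ×ˢ Lc) * (κ * ∏ j, (X j : ℝ)) := by
  set m := Fintype.card ↥(Jk ×ˢ Lc) with hm
  set R : ℝ := κ * ∏ j, (X j : ℝ) with hR
  have hR0 : 0 ≤ R := mul_nonneg hκ (Finset.prod_nonneg fun j _ => Nat.cast_nonneg _)
  have hpow : (0 : ℝ) < 2 ^ m := by positivity
  have hpowc : (2 : ℂ) ^ m ≠ 0 := pow_ne_zero _ two_ne_zero
  set bt : (ι → ℕ) → ↥(Jk ×ˢ Lc) → ZMod 2 := fun p e => nr (p e.1.1) (p e.1.2) with hbt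
  have h1 : ∀ p, F p (bt p) - (∑ ε, F p ε) / 2 ^ m =
      (∑ a, ∑ γ ∈ univ.erase (0 : ↥(Jk ×ˢ Lc) → ZMod 2),
        F p a * sg (∑ e, γ e * (bt p e - a e))) / 2 ^ m := by
    intro p
    rw [eq_div_iff hpowc, sub_mul, div_mul_cancel₀ _ hpowc]
    have h2 : F p (bt p) * 2 ^ m = ∑ a, F p a * (if bt p = a then (2 : ℂ) ^ m else 0) := by
      rw [Finset.sum_eq_single (bt p)]
      · rw [if_pos rfl]
      · intro b _ hb
        rw [if_neg (fun h => hb h.symm), mul_zero]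
      · intro h; exact absurd (Finset.mem_univ _) h
    rw [h2, ← Finset.sum_sub_distrib]
    refine Finset.sum_congr rfl fun a _ => ?_
    have h3 := detect a (bt p)
    rw [← Finset.add_sum_erase univ _ (Finset.mem_univ (0 : ↥(Jk ×ˢ Lc) → ZMod 2))] at h3
    rw [← hm] at h3
    rw [← h3, ← Finset.mul_sum]
    have h4 : sg (∑ e, (0 : ↥(Jk ×ˢ Lc) → ZMod 2) e * (bt p e - a e)) = 1 := by
      simp only [Pi.zero_apply, zero_mul, Finset.sum_const_zero, sg_zero]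
    rw [h4]
    ring
  rw [Finset.sum_congr rfl fun p _ => h1 p, ← Finset.sum_div, norm_div, norm_pow]
  have e2 : ‖(2 : ℂ)‖ = 2 := by norm_num
  rw [e2, div_le_iff₀ hpow]
  have h5 : ∑ p ∈ Fintype.piFinset C, ∑ a, ∑ γ ∈ univ.erase (0 : ↥(Jk ×ˢ Lc) → ZMod 2),
        F p a * sg (∑ e, γ e * (bt p e - a e)) =
      ∑ a, ∑ γ ∈ univ.erase (0 : ↥(Jk ×ˢ Lc) → ZMod 2), sg (∑ e, γ e * (- a e)) *
        ∑ p ∈ Fintype.piFinset C, F p a * sg (∑ e, γ e * bt p e) := by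
    rw [Finset.sum_comm]
    refine Finset.sum_congr rfl fun a _ => ?_
    rw [Finset.sum_comm]
    refine Finset.sum_congr rfl fun γ _ => ?_
    rw [Finset.mul_sum]
    refine Finset.sum_congr rfl fun p _ => ?_
    have h6 : ∑ e, γ e * (bt p e - a e) = ∑ e, γ e * (- a e) + ∑ e, γ e * bt p e := by
      rw [← Finset.sum_add_distrib]
      exact Finset.sum_congr rfl fun e _ => by ring
    rw [h6, sg_add]
    ring
  rw [h5]
  have h7 : ∀ a, ∀ γ ∈ univ.erase (0 : ↥(Jk ×ˢ Lc) → ZMod 2), ‖sg (∑ e, γ e * (- a e)) *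
        ∑ p ∈ Fintype.piFinset C, F p a * sg (∑ e, γ e * bt p e)‖ ≤ R := by
    intro a γ hγ
    rw [norm_mul, norm_sg, one_mul]
    exact norm_S hκ hC HBh hJL (fun p => F p a) (fun p => hF1 p a)
      (fun p p' h => congrFun (hF2 p p' h) a) γ (Finset.mem_erase.1 hγ).1
  refine (norm_sum_le _ _).trans ?_
  have h8 : ∀ a ∈ (univ : Finset (↥(Jk ×ˢ Lc) → ZMod 2)),
      ‖∑ γ ∈ univ.erase (0 : ↥(Jk ×ˢ Lc) → ZMod 2), sg (∑ e, γ e * (- a e)) *
        ∑ p ∈ Fintype.piFinset C, F p a * sg (∑ e, γ e * bt p e)‖ ≤ 2 ^ m * R := by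
    intro a _
    refine (norm_sum_le _ _).trans ?_
    refine (Finset.sum_le_card_nsmul _ _ _ (h7 a)).trans ?_
    rw [nsmul_eq_mul]
    refine mul_le_mul_of_nonneg_right ?_ hR0
    have h9 : (univ.erase (0 : ↥(Jk ×ˢ Lc) → ZMod 2)).card ≤ 2 ^ m := by
      refine (Finset.card_le_univ _).trans (le_of_eq ?_)
      rw [Fintype.card_fun, ZMod.card]
    exact_mod_cast h9
  refine (Finset.sum_le_card_nsmul _ _ _ h8).trans (le_of_eq ?_)
  rw [nsmul_eq_mul, Finset.card_univ, Fintype.card_fun, ZMod.card]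
  push_cast
  ring

end

end Pool.Agent.L0h1.KD
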