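import Pool.Agent.L0h1.KD.LD
import Pool.Agent.L0h1.KD.EQ
import Pool.Agent.L0h1.KD.Stm
import Pool.Agent.N19.GB.Parts
import Pool.Agent.N958.GB.BOX
import Pool.Agent.Y839.CQ.SYM
import Pool.Agent.Y948.CQ.C2

/-!
# Project KD (helper1): the count in a box, preparations
-/

set_option autoImplicit false
set_option linter.unusedSectionVars false
set_option linter.unusedVariables false
set_option maxHeartbeats 1000000

open scoped Classical

namespace Pool.Agent.L0h1.KD

open Finset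
open Pool.Agent.Y703.CQ (nr sg c2 S_SYM S_C2)
open Pool.Agent.N973.ND
open Pool.Agent.N916.GB (HB)

theorem ty_cases (x : ℕ) : (ty x = 0 ∧ m7 x = 0 ∧ uu x = 0) ∨ (ty x = 1 ∧ m7 x = 0 ∧ uu x = 1) ∨
    (ty x = 2 ∧ m7 x = 1 ∧ uu x = 0) ∨ (ty x = 3 ∧ m7 x = 1 ∧ uu x = 1) := by
  have h1 := m7_le x
  have h2 : m7 x = 0 ∨ m7 x = 1 := by omega
  unfold ty uu
  by_cases h : x % 4 = 3
  · rw [if_pos h, if_pos h]
    rcases h2 with h2 | h2 <;> rw [h2] <;> simp
  · rw [if_neg h, if_neg h]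
    rcases h2 with h2 | h2 <;> rw [h2] <;> simp

theorem m7_of_ty {x y : ℕ} (h : ty x = ty y) : m7 x = m7 y := by
  rcases ty_cases x with h1 | h1 | h1 | h1 <;> rcases ty_cases y with h2 | h2 | h2 | h2 <;>
    first | (exfalso; have a1 := h1.1; have a2 := h2.1; omega) | (rw [h1.2.1, h2.2.1])

theorem uu_of_ty {x y : ℕ} (h : ty x = ty y) : uu x = uu y := by
  rcases ty_cases x with h1 | h1 | h1 | h1 <;> rcases ty_cases y with h2 | h2 | h2 | h2 <;>
    first | (exfalso; have a1 := h1.1; have a2 := h2.1; omega) | (rw [h1.2.2, h2.2.2])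

/-- the type of the labels -/
abbrev Lb (S₀ : Finset ℕ) : Type := (S₀ → ZMod 2) × (S₀ → ZMod 2) × ZMod 2

/-- the label of a prime with respect to the small primes -/
noncomputable def lb (b : ℕ → ZMod 2) (S₀ : Finset ℕ) (x : ℕ) : Lb S₀ :=
  (fun v => nr x v, fun v => nr v x, b x)

/-- the good labels -/
def LN {ι : Type} (S₀ : Finset ℕ) (τ : ι → ℕ) (β : ι → Lb S₀) : Prop :=
  ∀ w : ℕ → ZMod 2, (∃ u ∈ S₀, w u ≠ 0) → ∃ i, τ i = 2 ∧ ∑ v : S₀, w v * (β i).1 v ≠ 0

section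
variable {ι : Type} [Fintype ι] [LinearOrder ι] {S₀ : Finset ℕ} {p : ι → ℕ} {τ : ι → ℕ}
  {b : ℕ → ZMod 2}

theorem nd_iff (hτ : ∀ i, ty (p i) = τ i) :
    Nd S₀ (univ.image p) ↔ LN S₀ τ (fun i => lb b S₀ (p i)) := by
  have key : ∀ (w : ℕ → ZMod 2) (i : ι),
      ∑ v ∈ S₀, w v * nr (p i) v = ∑ v : S₀, w v * (lb b S₀ (p i)).1 v := by
    intro w i
    rw [← Finset.sum_coe_sort S₀]
    rfl
  unfold Nd LN
  constructor
  · intro h w hw
    obtain ⟨x, hx, hx2, hx3⟩ := h w hw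
    obtain ⟨i, -, rfl⟩ := mem_image.1 hx
    exact ⟨i, by rw [← hτ i, hx2], by rw [← key]; exact hx3⟩
  · intro h w hw
    obtain ⟨i, hi, hi2⟩ := h w hw
    exact ⟨p i, mem_image_of_mem _ (mem_univ _), by rw [hτ i, hi], by rw [key]; exact hi2⟩

/-- the parametrization -/
def rr (S₀ : Finset ℕ) (p : ι → ℕ) : S₀ ⊕ ι → ℕ := Sum.elim (fun u => (u : ℕ)) p

theorem rr_inj (hp : Function.Injective p) (hd : ∀ i, p i ∉ S₀) :
    Function.Injective (rr S₀ p) := by
  have hd' : ∀ (u : S₀) (i : ι), (u : ℕ) ≠ p i := fun u i h => hd i (by rw [← h]; exact u.2)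
  rintro (u | i) (v | j) h
  · exact congrArg Sum.inl (Subtype.ext h)
  · exact absurd h (hd' u j)
  · exact absurd h.symm (hd' v i)
  · exact congrArg Sum.inr (hp h)

theorem rr_im : univ.image (rr S₀ p) = S₀ ∪ univ.image p := by
  ext x
  rw [mem_union, mem_image, mem_image]
  constructor
  · rintro ⟨u | i, -, rfl⟩
    · exact Or.inl u.2
    · exact Or.inr ⟨i, mem_univ _, rfl⟩
  · rintro (h | ⟨i, -, rfl⟩)
    · exact ⟨Sum.inl ⟨x, h⟩, mem_univ _, rfl⟩
    · exact ⟨Sum.inr i, mem_univ _, rfl⟩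

/-- the matrix of a family -/
noncomputable def NN {V : Type} (r : V → ℕ) (i j : V) : ZMod 2 := nr (r j) (r i)

/-- the matrix of a family -/
noncomputable def EE (A : ℕ → ℕ → ZMod 2) {V : Type} (r : V → ℕ) (i j : V) : ZMod 2 :=
  if i = j then 0 else A (r i) (r j) + nr (r j) (r i)

/-- the split indices -/
noncomputable def SSp {V : Type} [Fintype V] (r : V → ℕ) : Finset V :=
  univ.filter fun i => m7 (r i) = 1

/-- the other index set -/
noncomputable def PPc {V : Type} [Fintype V] (r : V → ℕ) : Finset V :=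
  univ.filter fun i => ty (r i) = 2 ∨ ty (r i) = 1

theorem GR_eq (A : ℕ → ℕ → ZMod 2) (b : ℕ → ZMod 2) {V : Type} [Fintype V] (r : V → ℕ) :
    GR A b r ↔ Gv (SSp r) (PPc r) (NN r) (EE A r) fun i => b (r i) := Iff.rfl

theorem ty_rr {p₀ : ι → ℕ} (h : ∀ i, ty (p i) = ty (p₀ i)) (i : S₀ ⊕ ι) :
    ty (rr S₀ p i) = ty (rr S₀ p₀ i) := by
  rcases i with u | i
  · rfl
  · exact h i

theorem SSp_eq {p₀ : ι → ℕ} (h : ∀ i, ty (p i) = ty (p₀ i)) :
    SSp (rr S₀ p) = SSp (rr S₀ p₀) := by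
  unfold SSp
  exact filter_congr fun i _ => by rw [m7_of_ty (ty_rr h i)]

theorem PPc_eq {p₀ : ι → ℕ} (h : ∀ i, ty (p i) = ty (p₀ i)) :
    PPc (rr S₀ p) = PPc (rr S₀ p₀) := by
  unfold PPc
  exact filter_congr fun i _ => by rw [ty_rr h i]

/-- the reciprocity of the matrix -/
theorem NN_rec {V : Type} {r : V → ℕ} (hr : Function.Injective r) (hp : ∀ i, Pr (r i)) (i j : V)
    (hij : i ≠ j) : NN r j i = NN r i j + uu (r i) * uu (r j) := by
  unfold NN
  rw [nr_rec (hp j).1 (hp j).2.1 (hp i).1 (hp i).2.1 fun h => hij (hr h).symm]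
  ring

theorem EE_symm {A : ℕ → ℕ → ZMod 2} (hA : RecA A) {V : Type} {r : V → ℕ}
    (hr : Function.Injective r) (hp : ∀ i, Pr (r i)) (i j : V) (hi : m7 (r i) = 1)
    (hj : m7 (r j) = 1) : EE A r i j = EE A r j i := by
  unfold EE
  by_cases h : i = j
  · rw [if_pos h, if_pos h.symm]
  · rw [if_neg h, if_neg fun h' => h h'.symm, hA (r i) (r j) (hp i) (hp j) (fun h' => h (hr h')) hi hj]
    have h1 := NN_rec hr hp i j h
    unfold NN at h1
    rw [h1]
    have : ∀ x y z : ZMod 2, x + y = x + z + (y + z) := by decide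
    exact this _ _ _

/-- the sizes -/
theorem card_sp {m : ℕ} (hτ : ∀ i, ty (p i) = τ i)
    (h : kd S₀ + ((univ.filter fun i => τ i = 3).card : ℤ) -
      ((univ.filter fun i => τ i = 1).card : ℤ) = 2 * m) :
    (SSp (rr S₀ p)).card = (PPc (rr S₀ p)).card + 2 * m := by
  have key : ∀ x : ℕ, (if m7 x = 1 then (1 : ℤ) else 0) - (if ty x = 2 ∨ ty x = 1 then 1 else 0) =
      (if ty x = 3 then 1 else 0) - (if ty x = 1 then 1 else 0) := by
    intro x
    rcases ty_cases x with h | h | h | h <;> rw [h.1, h.2.1] <;> simp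
  have h1 : ((SSp (rr S₀ p)).card : ℤ) - ((PPc (rr S₀ p)).card : ℤ) =
      ∑ i : S₀ ⊕ ι, ((if ty (rr S₀ p i) = 3 then (1 : ℤ) else 0) -
        (if ty (rr S₀ p i) = 1 then 1 else 0)) := by
    unfold SSp PPc
    rw [card_filter, card_filter]
    push_cast
    rw [← sum_sub_distrib]
    exact sum_congr rfl fun i _ => key _
  have h2 : ∑ i : S₀ ⊕ ι, ((if ty (rr S₀ p i) = 3 then (1 : ℤ) else 0) -
        (if ty (rr S₀ p i) = 1 then 1 else 0)) = kd S₀ +
      ((univ.filter fun i => τ i = 3).card : ℤ) - ((univ.filter fun i => τ i = 1).card : ℤ) := by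
    rw [Fintype.sum_sum_type]
    have h3 : ∑ u : S₀, ((if ty (rr S₀ p (Sum.inl u)) = 3 then (1 : ℤ) else 0) -
        (if ty (rr S₀ p (Sum.inl u)) = 1 then 1 else 0)) = kd S₀ := by
      unfold kd
      rw [card_filter, card_filter]
      push_cast
      rw [← sum_sub_distrib, ← Finset.sum_coe_sort S₀]
      rfl
    have h4 : ∑ i : ι, ((if ty (rr S₀ p (Sum.inr i)) = 3 then (1 : ℤ) else 0) -
        (if ty (rr S₀ p (Sum.inr i)) = 1 then 1 else 0)) =
        ((univ.filter fun i => τ i = 3).card : ℤ) - ((univ.filter fun i => τ i = 1).card : ℤ) := by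
      rw [card_filter, card_filter]
      push_cast
      rw [← sum_sub_distrib]
      refine sum_congr rfl fun i _ => ?_
      have : ty (rr S₀ p (Sum.inr i)) = τ i := hτ i
      rw [this]
    rw [h3, h4]
    ring
  rw [h2, h] at h1
  omega

end

/-- the number of the pairs -/
theorem card_prod_le {ι : Type} [Fintype ι] [LinearOrder ι] {Jk Lc : Finset ι}
    (h : Disjoint Jk Lc) : Fintype.card ↥(Jk ×ˢ Lc) ≤ (Pool.Agent.N916.GB.ps ι).card := by
  rw [Fintype.card_coe]
  have hne : ∀ x ∈ Jk ×ˢ Lc, x.1 ≠ x.2 := by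
    intro x hx h'
    rw [mem_product] at hx
    exact (Finset.disjoint_left.1 h) hx.1 (h' ▸ hx.2)
  refine card_le_card_of_injOn (fun x => if x.1 < x.2 then x else (x.2, x.1)) ?_ ?_
  · intro x hx
    rw [mem_coe] at hx ⊢
    have h1 := hne x hx
    unfold Pool.Agent.N916.GB.ps
    rw [mem_filter]
    refine ⟨mem_univ _, ?_⟩
    by_cases h2 : x.1 < x.2
    · simp only [if_pos h2]
      exact h2
    · simp only [if_neg h2]
      exact lt_of_le_of_ne (not_lt.1 h2) h1.symm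
  · intro x hx y hy hxy
    rw [mem_coe, mem_product] at hx hy
    simp only at hxy
    by_cases h1 : x.1 < x.2
    · rw [if_pos h1] at hxy
      by_cases h2 : y.1 < y.2
      · rwa [if_pos h2] at hxy
      · rw [if_neg h2] at hxy
        exfalso
        have h3 : x.1 = y.2 := congrArg Prod.fst hxy
        exact (Finset.disjoint_left.1 h) hx.1 (h3 ▸ hy.2)
    · rw [if_neg h1] at hxy
      by_cases h2 : y.1 < y.2
      · rw [if_pos h2] at hxy
        exfalso
        have h3 : x.2 = y.1 := congrArg Prod.fst hxy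
        exact (Finset.disjoint_left.1 h) hy.1 (h3 ▸ hx.2)
      · rw [if_neg h2] at hxy
        have h3 : x.2 = y.2 := congrArg Prod.fst hxy
        have h4 : x.1 = y.1 := congrArg Prod.snd hxy
        exact Prod.ext h4 h3

end Pool.Agent.L0h1.KD
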