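import Pool.Agent.N973.ND.LA2

/-!
# Project KD (helper1): the moves of the columns
-/

set_option autoImplicit false
set_option linter.unusedSectionVars false
set_option linter.unusedVariables false

open scoped Classical

namespace Pool.Agent.L0h1.KD

open Finset
open Pool.Agent.N973.ND

/-- the probability that an alternating matrix of size `2 m` is not singular -/
noncomputable def am (m : ℕ) : ℝ := ∏ i ∈ range m, (1 - (1 / 2 : ℝ) ^ (2 * i + 1))

section
variable {U J : Type} [Fintype U] [Fintype J] [LinearOrder J]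

/-- the value of the form at a change `δ` -/
theorem Ph_inl (N : U ⊕ J → U ⊕ J → ZMod 2) (δ : J → J → ZMod 2) (b : U ⊕ J → ZMod 2)
    (s : U ⊕ J → ZMod 2) (v : U) : Ph (pt N δ) b s (Sum.inl v) = Ph N b s (Sum.inl v) := by
  unfold Ph TT
  rw [Fintype.sum_sum_type, Fintype.sum_sum_type, Fintype.sum_sum_type, Fintype.sum_sum_type]
  have e1 : ∀ v' : U, pt N δ (Sum.inl v') (Sum.inl v) = N (Sum.inl v') (Sum.inl v) := fun _ => rfl
  have e2 : ∀ l : J, pt N δ (Sum.inr l) (Sum.inl v) = N (Sum.inr l) (Sum.inl v) := fun _ => rfl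
  have e3 : ∀ v' : U, pt N δ (Sum.inl v) (Sum.inl v') = N (Sum.inl v) (Sum.inl v') := fun _ => rfl
  have e4 : ∀ l : J, pt N δ (Sum.inl v) (Sum.inr l) = N (Sum.inl v) (Sum.inr l) := fun _ => rfl
  simp only [e1, e2, e3, e4]

theorem Ph_inr (N : U ⊕ J → U ⊕ J → ZMod 2) (δ : J → J → ZMod 2) (b : U ⊕ J → ZMod 2)
    (s : U ⊕ J → ZMod 2) (l : J) : Ph (pt N δ) b s (Sum.inr l) = Ph N b s (Sum.inr l) +
      ∑ k, s (Sum.inr k) * δ k l + (∑ l', δ l l') * s (Sum.inr l) := by
  unfold Ph TT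
  rw [Fintype.sum_sum_type, Fintype.sum_sum_type, Fintype.sum_sum_type, Fintype.sum_sum_type]
  have e1 : ∀ v' : U, pt N δ (Sum.inl v') (Sum.inr l) = N (Sum.inl v') (Sum.inr l) := fun _ => rfl
  have e2 : ∀ k : J, pt N δ (Sum.inr k) (Sum.inr l) = N (Sum.inr k) (Sum.inr l) + δ k l :=
    fun _ => rfl
  have e3 : ∀ v' : U, pt N δ (Sum.inr l) (Sum.inl v') = N (Sum.inr l) (Sum.inl v') := fun _ => rfl
  have e4 : ∀ k : J, pt N δ (Sum.inr l) (Sum.inr k) = N (Sum.inr l) (Sum.inr k) + δ l k :=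
    fun _ => rfl
  simp only [e1, e2, e3, e4, mul_add, sum_add_distrib]
  ring

/-- a move: the vector `v τ` is added to the two columns `α τ` and `β τ` -/
def mv {q : ℕ} (Jk : Finset J) (α β : Fin q → J) (v : Fin q → J → ZMod 2) (k l : J) : ZMod 2 :=
  if k ∈ Jk then ∑ τ, ((if l = α τ then v τ k else 0) + (if l = β τ then v τ k else 0)) else 0

/-- the pairing on the large split indices -/
def pr (Jk : Finset J) (a : J → ZMod 2) (s : U ⊕ J → ZMod 2) : ZMod 2 :=
  ∑ k ∈ Jk, a k * s (Sum.inr k)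

theorem mv_row {q : ℕ} (Jk : Finset J) (α β : Fin q → J) (v : Fin q → J → ZMod 2) (k : J) :
    ∑ l, mv Jk α β v k l = 0 := by
  unfold mv
  by_cases hk : k ∈ Jk
  · simp only [if_pos hk]
    rw [sum_comm]
    refine sum_eq_zero fun τ _ => ?_
    rw [sum_add_distrib, sum_ite_eq' univ (α τ), sum_ite_eq' univ (β τ), if_pos (mem_univ _),
      if_pos (mem_univ _), z2_add]
  · simp only [if_neg hk]
    exact sum_const_zero

/-- the change of the columns -/
def ww {q : ℕ} (Jk : Finset J) (α β : Fin q → J) (v : Fin q → J → ZMod 2) (s : U ⊕ J → ZMod 2)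
    (l : J) : ZMod 2 :=
  ∑ τ, ((if l = α τ then pr Jk (v τ) s else 0) + (if l = β τ then pr Jk (v τ) s else 0))

theorem mv_col {q : ℕ} (Jk : Finset J) (α β : Fin q → J) (v : Fin q → J → ZMod 2)
    (s : U ⊕ J → ZMod 2) (l : J) :
    ∑ k, s (Sum.inr k) * mv Jk α β v k l = ww Jk α β v s l := by
  unfold mv ww pr
  have h1 : ∀ k, s (Sum.inr k) * (if k ∈ Jk then ∑ τ, ((if l = α τ then v τ k else 0) +
      (if l = β τ then v τ k else 0)) else 0) = if k ∈ Jk then
      s (Sum.inr k) * ∑ τ, ((if l = α τ then v τ k else 0) + (if l = β τ then v τ k else 0))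
      else 0 := by
    intro k
    split_ifs
    · rfl
    · rw [mul_zero]
  rw [sum_congr rfl fun k _ => h1 k, ← sum_filter, filter_mem_eq_inter, univ_inter]
  have h2 : ∀ k, s (Sum.inr k) * ∑ τ, ((if l = α τ then v τ k else 0) +
      (if l = β τ then v τ k else 0)) = ∑ τ, ((if l = α τ then v τ k * s (Sum.inr k) else 0) +
      (if l = β τ then v τ k * s (Sum.inr k) else 0)) := by
    intro k
    rw [mul_sum]
    refine sum_congr rfl fun τ _ => ?_
    split_ifs <;> ring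
  rw [sum_congr rfl fun k _ => h2 k, sum_comm]
  refine sum_congr rfl fun τ _ => ?_
  rw [sum_add_distrib]
  congr 1
  · split_ifs
    · rfl
    · exact sum_const_zero
  · split_ifs
    · rfl
    · exact sum_const_zero

theorem Ph_mv {q : ℕ} (N : U ⊕ J → U ⊕ J → ZMod 2) (Jk : Finset J) (α β : Fin q → J)
    (v : Fin q → J → ZMod 2) (b : U ⊕ J → ZMod 2) (s : U ⊕ J → ZMod 2) (l : J) :
    Ph (pt N (mv Jk α β v)) b s (Sum.inr l) = Ph N b s (Sum.inr l) + ww Jk α β v s l := by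
  rw [Ph_inr, mv_row, zero_mul, add_zero, mv_col]

theorem ww_off {q : ℕ} (Jk : Finset J) {α β : Fin q → J} (v : Fin q → J → ZMod 2)
    (s : U ⊕ J → ZMod 2) {l : J} (h1 : ∀ τ, l ≠ α τ) (h2 : ∀ τ, l ≠ β τ) :
    ww Jk α β v s l = 0 := by
  unfold ww
  refine sum_eq_zero fun τ _ => ?_
  rw [if_neg (h1 τ), if_neg (h2 τ), add_zero]

theorem ww_α {q : ℕ} (Jk : Finset J) {α β : Fin q → J} (hα : Function.Injective α)
    (hαβ : ∀ τ τ', α τ ≠ β τ') (v : Fin q → J → ZMod 2)
    (s : U ⊕ J → ZMod 2) (τ : Fin q) : ww Jk α β v s (α τ) = pr Jk (v τ) s := by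
  unfold ww
  rw [sum_eq_single τ]
  · rw [if_pos rfl, if_neg (hαβ τ τ), add_zero]
  · intro τ' _ h
    rw [if_neg fun h' => h (hα h').symm, if_neg (hαβ τ τ'), add_zero]
  · intro h; exact absurd (mem_univ _) h

theorem ww_β {q : ℕ} (Jk : Finset J) {α β : Fin q → J} (hβ : Function.Injective β)
    (hαβ : ∀ τ τ', α τ ≠ β τ') (v : Fin q → J → ZMod 2)
    (s : U ⊕ J → ZMod 2) (τ : Fin q) : ww Jk α β v s (β τ) = pr Jk (v τ) s := by
  unfold ww
  rw [sum_eq_single τ]
  · rw [if_pos rfl, if_neg (fun h => hαβ τ τ h.symm), zero_add]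
  · intro τ' _ h
    rw [if_neg fun h' => hαβ τ' τ h'.symm, if_neg fun h' => h (hβ h').symm, add_zero]
  · intro h; exact absurd (mem_univ _) h

/-- a sum with the change of the columns -/
theorem sum_ww {q : ℕ} (Jk : Finset J) (α β : Fin q → J) (v : Fin q → J → ZMod 2)
    (s : U ⊕ J → ZMod 2) (f : J → ZMod 2) :
    ∑ l, f l * ww Jk α β v s l = ∑ τ, (f (α τ) + f (β τ)) * pr Jk (v τ) s := by
  unfold ww
  have h1 : ∀ l, f l * ∑ τ, ((if l = α τ then pr Jk (v τ) s else 0) +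
      (if l = β τ then pr Jk (v τ) s else 0)) =
      ∑ τ, ((if l = α τ then f l * pr Jk (v τ) s else 0) +
      (if l = β τ then f l * pr Jk (v τ) s else 0)) := by
    intro l
    rw [mul_sum]
    refine sum_congr rfl fun τ _ => ?_
    split_ifs <;> ring
  rw [sum_congr rfl fun l _ => h1 l, sum_comm]
  refine sum_congr rfl fun τ _ => ?_
  rw [sum_add_distrib, sum_ite_eq' univ (α τ), sum_ite_eq' univ (β τ), if_pos (mem_univ _),
    if_pos (mem_univ _)]
  ring

/-- the change of the form -/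
theorem bf_mv {q : ℕ} (N E : U ⊕ J → U ⊕ J → ZMod 2) (Jk : Finset J) {α β : Fin q → J}
    (hα : Function.Injective α) (hβ : Function.Injective β) (hαβ : ∀ τ τ', α τ ≠ β τ')
    (v : Fin q → J → ZMod 2) (b : U ⊕ J → ZMod 2) (y s : U ⊕ J → ZMod 2) :
    bf (pt N (mv Jk α β v)) E b y s = bf N E b y s +
      ∑ τ, ((Ph N b y (Sum.inr (α τ)) + Ph N b y (Sum.inr (β τ))) * pr Jk (v τ) s +
        (Ph N b s (Sum.inr (α τ)) + Ph N b s (Sum.inr (β τ))) * pr Jk (v τ) y) := by
  unfold bf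
  rw [Fintype.sum_sum_type (f := fun j => Ph (pt N (mv Jk α β v)) b y j *
    Ph (pt N (mv Jk α β v)) b s j), Fintype.sum_sum_type (f := fun j => Ph N b y j * Ph N b s j)]
  have h1 : ∀ u : U, Ph (pt N (mv Jk α β v)) b y (Sum.inl u) * Ph (pt N (mv Jk α β v)) b s
      (Sum.inl u) = Ph N b y (Sum.inl u) * Ph N b s (Sum.inl u) := fun u => by
    rw [Ph_inl, Ph_inl]
  have h2 : ∀ l : J, Ph (pt N (mv Jk α β v)) b y (Sum.inr l) * Ph (pt N (mv Jk α β v)) b s
      (Sum.inr l) = Ph N b y (Sum.inr l) * Ph N b s (Sum.inr l) +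
      Ph N b y (Sum.inr l) * ww Jk α β v s l + Ph N b s (Sum.inr l) * ww Jk α β v y l +
      ww Jk α β v y l * ww Jk α β v s l := fun l => by
    rw [Ph_mv, Ph_mv]
    ring
  rw [sum_congr rfl fun u _ => h1 u, sum_congr rfl fun l _ => h2 l, sum_add_distrib,
    sum_add_distrib, sum_add_distrib, sum_ww Jk α β v s fun l => Ph N b y (Sum.inr l),
    sum_ww Jk α β v y fun l => Ph N b s (Sum.inr l), sum_ww Jk α β v s fun l => ww Jk α β v y l]
  have h3 : ∑ τ, (ww Jk α β v y (α τ) + ww Jk α β v y (β τ)) * pr Jk (v τ) s = 0 := by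
    refine sum_eq_zero fun τ _ => ?_
    rw [ww_α Jk hα hαβ, ww_β Jk hβ hαβ, z2_add, zero_mul]
  rw [h3, sum_add_distrib]
  ring

variable {Sp Pc : Finset (U ⊕ J)} {Jk Lc : Finset J}

/-- the move does not change the dual kernel -/
theorem Zk_mv {q : ℕ} (N : U ⊕ J → U ⊕ J → ZMod 2) {α β : Fin q → J}
    (hα : ∀ τ, Sum.inr (α τ) ∉ Pc) (hβ : ∀ τ, Sum.inr (β τ) ∉ Pc)
    (v : Fin q → J → ZMod 2) (b : U ⊕ J → ZMod 2) (s : U ⊕ J → ZMod 2) :
    Zk Sp Pc (pt N (mv Jk α β v)) b s ↔ Zk Sp Pc N b s := by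
  unfold Zk
  refine and_congr_right fun _ => forall_congr' fun j => ?_
  refine forall_congr' fun hj => ?_
  rcases j with u | l
  · rw [Ph_inl]
  · rw [Ph_mv, ww_off, add_zero]
    · rintro τ rfl; exact hα τ hj
    · rintro τ rfl; exact hβ τ hj

/-- the move does not change the kernel -/
theorem Wk_mv {q : ℕ} (N : U ⊕ J → U ⊕ J → ZMod 2) {α β : Fin q → J}
    (hα : ∀ τ, Sum.inr (α τ) ∉ Pc) (hβ : ∀ τ, Sum.inr (β τ) ∉ Pc)
    (v : Fin q → J → ZMod 2) (b : U ⊕ J → ZMod 2) (x : U ⊕ J → ZMod 2) :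
    Wk Sp Pc (pt N (mv Jk α β v)) b x ↔ Wk Sp Pc N b x := by
  unfold Wk
  refine and_congr_right fun hx => forall_congr' fun i => forall_congr' fun hi => ?_
  have key : rw' (pt N (mv Jk α β v)) b x i = rw' N b x i := by
    rcases i with u | k
    · rw [row_inl]
    · rw [row_inr]
      have h1 : ∑ l, mv Jk α β v k l * (x (Sum.inr l) + x (Sum.inr k)) = 0 := by
        simp only [mul_add, sum_add_distrib]
        rw [← sum_mul, mv_row, zero_mul, add_zero]
        refine sum_eq_zero fun l _ => ?_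
        unfold mv
        by_cases hk : k ∈ Jk
        · rw [if_pos hk]
          by_cases hl : ∃ τ, l = α τ ∨ l = β τ
          · obtain ⟨τ, h | h⟩ := hl
            · rw [h, hx _ (hα τ), mul_zero]
            · rw [h, hx _ (hβ τ), mul_zero]
          · push Not at hl
            rw [sum_eq_zero, zero_mul]
            intro τ _
            rw [if_neg (hl τ).1, if_neg (hl τ).2, add_zero]
        · rw [if_neg hk, zero_mul]
      rw [h1, add_zero]
  unfold rw' at key
  rw [key]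

end

end Pool.Agent.L0h1.KD
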