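import Pool.Agent.L0h1.KD.LA

/-!
# Project KD (helper1): the form on the dual kernel is uniform
-/

set_option autoImplicit false
set_option linter.unusedSectionVars false
set_option linter.unusedVariables false
set_option maxHeartbeats 1000000

open scoped Classical

namespace Pool.Agent.L0h1.KD

open Finset
open Pool.Agent.N973.ND

theorem card_Pp (m : ℕ) : Fintype.card (Pp (2 * m)) = m * (2 * m - 1) := by
  have h1 : Fintype.card (Pp (2 * m)) = ∑ a : Fin (2 * m), (2 * m - 1 - (a : ℕ)) := by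
    rw [Fintype.card_subtype, card_filter, ← univ_product_univ, sum_product]
    refine sum_congr rfl fun a _ => ?_
    rw [← card_filter]
    have h2 : (univ.filter fun c : Fin (2 * m) => a < c) = Ioi a := by
      ext c
      simp
    simp only
    rw [h2, Fin.card_Ioi]
  rw [h1, Fin.sum_univ_eq_sum_range (fun a => 2 * m - 1 - a) (2 * m),
    Finset.sum_range_reflect (fun a => a) (2 * m)]
  have h3 := Finset.sum_range_id_mul_two (2 * m)
  have h4 : m * (2 * m - 1) * 2 = 2 * m * (2 * m - 1) := by ring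
  omega

theorem card_alt (hALT : S_ALT) (m : ℕ) :
    ((univ.filter fun r : Pp (2 * m) → ZMod 2 => (alt r).det ≠ 0).card : ℝ) =
      2 ^ Fintype.card (Pp (2 * m)) * am m := by
  have h1 := hALT m
  rw [card_Pp]
  unfold am
  rw [← h1]
  congr 1
  rw [Nat.card_eq_fintype_card, Fintype.card_subtype]
  refine card_bij' (fun r _ => alt r) (fun M _ p => M p.1.1 p.1.2) ?_ ?_ ?_ ?_
  · intro r hr
    rw [mem_filter] at hr ⊢
    exact ⟨mem_univ _, alt_symm r, alt_self r, hr.2⟩
  · intro M hM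
    rw [mem_filter] at hM ⊢
    refine ⟨mem_univ _, ?_⟩
    rw [alt_of hM.2.1 hM.2.2.1]
    exact hM.2.2.2
  · intro r _
    funext p
    exact alt_lt r p.2
  · intro M hM
    rw [mem_filter] at hM
    exact alt_of hM.2.1 hM.2.2.1

section
variable {U J : Type} [Fintype U] [Fintype J] [LinearOrder J]
variable {Sp Pc : Finset (U ⊕ J)} {Jk : Finset J}

theorem pr_add (a a' : J → ZMod 2) (s : U ⊕ J → ZMod 2) :
    pr Jk (a + a') s = pr Jk a s + pr Jk a' s := by
  unfold pr
  rw [← sum_add_distrib]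
  exact sum_congr rfl fun k _ => by rw [Pi.add_apply, add_mul]

theorem pr_smul (c : ZMod 2) (a : J → ZMod 2) (s : U ⊕ J → ZMod 2) :
    pr Jk (c • a) s = c * pr Jk a s := by
  unfold pr
  rw [mul_sum]
  exact sum_congr rfl fun k _ => by rw [Pi.smul_apply, smul_eq_mul, mul_assoc]

theorem pr_single {k : J} (hk : k ∈ Jk) (s : U ⊕ J → ZMod 2) :
    pr Jk (Pi.single k (1 : ZMod 2)) s = s (Sum.inr k) := by
  unfold pr
  rw [sum_eq_single k]
  · rw [Pi.single_eq_same, one_mul]
  · intro l _ hl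
    rw [Pi.single_eq_of_ne hl, zero_mul]
  · intro h; exact absurd hk h

theorem pr_zero (s : U ⊕ J → ZMod 2) : pr Jk (0 : J → ZMod 2) s = 0 := by
  unfold pr
  exact sum_eq_zero fun k _ => by rw [Pi.zero_apply, zero_mul]

/-- **the last columns**: exact uniformity -/
theorem vstep (hALT : S_ALT) {q m : ℕ} {N E : U ⊕ J → U ⊕ J → ZMod 2} {b : U ⊕ J → ZMod 2}
    {α β : Fin q → J} (hα : Function.Injective α) (hβ : Function.Injective β)
    (hαβ : ∀ τ τ', α τ ≠ β τ') (hαP : ∀ τ, Sum.inr (α τ) ∉ Pc) (hβP : ∀ τ, Sum.inr (β τ) ∉ Pc)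
    (hE : ∀ i ∈ Sp, ∀ j ∈ Sp, E i j = E j i) (hE0 : ∀ i, E i i = 0)
    (h1 : ∀ x, Wk Sp Pc N b x → ∀ j, x j = 0) (hcard : Sp.card = Pc.card + 2 * m)
    (hinj : ∀ s, Zk Sp Pc N b s → (∀ k ∈ Jk, s (Sum.inr k) = 0) → ∀ j, s j = 0)
    (hgood : ∀ s, Zk Sp Pc N b s →
      (∀ τ, Ph N b s (Sum.inr (α τ)) + Ph N b s (Sum.inr (β τ)) = 0) → ∀ j, s j = 0) :
    ((univ.filter fun v : Fin q → J → ZMod 2 => Gv Sp Pc (pt N (mv Jk α β v)) E b).card : ℝ) =
      am m * (Fintype.card (Fin q → J → ZMod 2) : ℝ) := by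
  have hfr : Module.finrank (ZMod 2) (ZZ Sp Pc N b) = 2 * m := by
    have h2 := card_Z h1
    rw [hcard, pow_add] at h2
    have h3 : Nat.card (ZZ Sp Pc N b) = 2 ^ (2 * m) := by
      have h4 : (0 : ℕ) < 2 ^ Pc.card := by positivity
      refine Nat.eq_of_mul_eq_mul_right h4 ?_
      rw [h2]
      ring
    have h5 := Module.card_eq_pow_finrank (K := ZMod 2) (V := ZZ Sp Pc N b)
    rw [← Nat.card_eq_fintype_card, h3, ZMod.card] at h5
    exact (Nat.pow_right_injective le_rfl h5).symm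
  set z : Module.Basis (Fin (2 * m)) (ZMod 2) (ZZ Sp Pc N b) :=
    Module.finBasisOfFinrankEq (ZMod 2) (ZZ Sp Pc N b) hfr with hz
  have hzZ : ∀ a, Zk Sp Pc N b (z a : U ⊕ J → ZMod 2) := fun a => (z a).2
  -- the linear map
  set A : Fin q → (U ⊕ J → ZMod 2) → ZMod 2 := fun τ y =>
    Ph N b y (Sum.inr (α τ)) + Ph N b y (Sum.inr (β τ)) with hA
  have hAadd : ∀ τ y y', A τ (y + y') = A τ y + A τ y' := by
    intro τ y y'
    simp only [hA, Ph_add]
    ring
  have hAsmul : ∀ τ (c : ZMod 2) y, A τ (c • y) = c * A τ y := by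
    intro τ c y
    simp only [hA, Ph_smul]
    ring
  set L : (Fin q → J → ZMod 2) →ₗ[ZMod 2] (Pp (2 * m) → ZMod 2) :=
    { toFun := fun v p => ∑ τ, (A τ (z p.1.1) * pr Jk (v τ) (z p.1.2 : U ⊕ J → ZMod 2) +
        A τ (z p.1.2) * pr Jk (v τ) (z p.1.1 : U ⊕ J → ZMod 2))
      map_add' := fun v v' => by
        funext p
        simp only [Pi.add_apply, pr_add, mul_add, sum_add_distrib]
        ring
      map_smul' := fun c v => by
        funext p
        simp only [Pi.smul_apply, pr_smul, RingHom.id_apply, smul_eq_mul, mul_sum]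
        exact sum_congr rfl fun τ _ => by ring } with hL
  have hsum : ∀ (c : Fin (2 * m) → ZMod 2),
      ((∑ i, c i • z i : ZZ Sp Pc N b) : U ⊕ J → ZMod 2) =
      ∑ i, c i • (z i : U ⊕ J → ZMod 2) := by
    intro c
    rw [Submodule.coe_sum]
    rfl
  have hzero : ∀ c : Fin (2 * m) → ZMod 2,
      (∀ j, (∑ i, c i • (z i : U ⊕ J → ZMod 2)) j = 0) → ∀ i, c i = 0 := by
    intro c hc
    have h2 : (∑ i, c i • z i : ZZ Sp Pc N b) = 0 := by
      apply Subtype.ext
      rw [hsum]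
      exact funext hc
    exact Fintype.linearIndependent_iff.1 z.linearIndependent c h2
  have hind : ∀ r : Pp (2 * m) → ZMod 2, (∀ v, ∑ p, r p * L v p = 0) → ∀ p, r p = 0 := by
    intro r hr
    set R := alt r with hR
    have h2 : ∀ v : Fin q → J → ZMod 2, ∑ a, ∑ c, R a c * ∑ τ, A τ (z a) *
        pr Jk (v τ) (z c : U ⊕ J → ZMod 2) = 0 := by
      intro v
      rw [← hr v, ← sum_alt r fun a c => ∑ τ, A τ (z a) * pr Jk (v τ) (z c : U ⊕ J → ZMod 2)]
      refine sum_congr rfl fun p _ => ?_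
      have h3 : L v p = ∑ τ, (A τ (z p.1.1) * pr Jk (v τ) (z p.1.2 : U ⊕ J → ZMod 2) +
        A τ (z p.1.2) * pr Jk (v τ) (z p.1.1 : U ⊕ J → ZMod 2)) := rfl
      rw [h3, sum_add_distrib]
    have h3 : ∀ τ, ∀ k ∈ Jk, ∑ c, (∑ a, R a c * A τ (z a)) *
        (z c : U ⊕ J → ZMod 2) (Sum.inr k) = 0 := by
      intro τ k hk
      refine Eq.trans ?_ (h2 (Pi.single τ (Pi.single k 1)))
      rw [sum_comm]
      refine sum_congr rfl fun c _ => ?_
      rw [sum_mul]
      refine sum_congr rfl fun a _ => ?_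
      rw [sum_eq_single τ]
      · rw [Pi.single_eq_same, pr_single hk]
        ring
      · intro τ' _ h
        rw [Pi.single_eq_of_ne h, pr_zero, mul_zero]
      · intro h; exact absurd (mem_univ _) h
    have h4 : ∀ τ c, ∑ a, R a c * A τ (z a) = 0 := by
      intro τ
      have h5 := hinj (∑ c, (∑ a, R a c * A τ (z a)) • (z c : U ⊕ J → ZMod 2)) (by
        rw [← hsum]
        exact (∑ c, (∑ a, R a c * A τ (z a)) • z c : ZZ Sp Pc N b).2) (by
        intro k hk
        rw [Finset.sum_apply]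
        refine Eq.trans ?_ (h3 τ k hk)
        exact sum_congr rfl fun c _ => by rw [Pi.smul_apply, smul_eq_mul])
      exact hzero _ h5
    have h5 : ∀ c a, R a c = 0 := by
      intro c
      have hAs : ∀ τ, A τ (∑ a, R a c • (z a : U ⊕ J → ZMod 2)) = ∑ a, R a c * A τ (z a) := by
        intro τ
        set f : (U ⊕ J → ZMod 2) →ₗ[ZMod 2] ZMod 2 :=
          { toFun := A τ
            map_add' := hAadd τ
            map_smul' := fun a s => hAsmul τ a s } with hf
        have h6 := map_sum f (fun a => R a c • (z a : U ⊕ J → ZMod 2)) univ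
        have h7 : ∀ s, f s = A τ s := fun _ => rfl
        simp only [h7] at h6
        rw [h6]
        exact sum_congr rfl fun a _ => hAsmul _ _ _
      have h6 := hgood (∑ a, R a c • (z a : U ⊕ J → ZMod 2)) (by
        rw [← hsum]
        exact (∑ a, R a c • z a : ZZ Sp Pc N b).2) (by
        intro τ
        exact (hAs τ).trans (h4 τ c))
      exact hzero _ h6
    intro p
    have h6 := h5 p.1.2 p.1.1
    rwa [hR, alt_lt r p.2] at h6
  set M₀ := gm N E b fun a => (z a : U ⊕ J → ZMod 2) with hM₀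
  set r₀ : Pp (2 * m) → ZMod 2 := fun p => M₀ p.1.1 p.1.2 with hr₀
  have hiff : ∀ v : Fin q → J → ZMod 2, Gv Sp Pc (pt N (mv Jk α β v)) E b ↔
      (alt (r₀ + L v)).det ≠ 0 := by
    intro v
    set Nv := pt N (mv Jk α β v) with hNv
    have hZ : ZZ Sp Pc N b = ZZ Sp Pc Nv b := by
      ext s
      exact (Zk_mv N hαP hβP v b s).symm
    have e1 : Gv Sp Pc Nv E b ↔ ∀ s, Zk Sp Pc Nv b s →
        (∀ y, Zk Sp Pc Nv b y → bf Nv E b y s = 0) → ∀ j, s j = 0 := by
      unfold Gv
      refine and_iff_right ?_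
      intro x hx
      exact h1 x ((Wk_mv N hαP hβP v b x).1 hx)
    rw [e1, nondeg_iff hE (z.map (LinearEquiv.ofEq _ _ hZ))]
    have e2 : ∀ a, ((z.map (LinearEquiv.ofEq _ _ hZ)) a : U ⊕ J → ZMod 2) = z a := by
      intro a
      rw [Module.Basis.map_apply, LinearEquiv.coe_ofEq_apply]
    simp only [e2]
    have e3 : gm Nv E b (fun a => (z a : U ⊕ J → ZMod 2)) = alt (r₀ + L v) := by
      rw [← alt_of (M := gm Nv E b (fun a => (z a : U ⊕ J → ZMod 2)))]
      · congr 1
        funext p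
        have e4 : (r₀ + L v) p = bf N E b (z p.1.1) (z p.1.2) +
          ∑ τ, (A τ (z p.1.1) * pr Jk (v τ) (z p.1.2 : U ⊕ J → ZMod 2) +
        A τ (z p.1.2) * pr Jk (v τ) (z p.1.1 : U ⊕ J → ZMod 2)) := rfl
        rw [e4]
        exact bf_mv N E Jk hα hβ hαβ v b _ _
      · apply Matrix.IsSymm.ext
        intro a c
        exact bf_comm hE (hzZ _).1 (hzZ _).1
      · intro a
        exact bf_self hE hE0 (hzZ _).1
    rw [e3]
  have hcount : (univ.filter fun v : Fin q → J → ZMod 2 =>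
      Gv Sp Pc (pt N (mv Jk α β v)) E b).card * 2 ^ Fintype.card (Pp (2 * m)) =
      (univ.filter fun r : Pp (2 * m) → ZMod 2 => (alt r).det ≠ 0).card *
        Fintype.card (Fin q → J → ZMod 2) := by
    rw [filter_congr fun v _ => hiff v]
    rw [card_eq_sum_card_fiberwise (f := fun v => r₀ + L v)
      (t := univ.filter fun r : Pp (2 * m) → ZMod 2 => (alt r).det ≠ 0) (by
        intro v hv
        rw [mem_coe, mem_filter] at hv ⊢
        exact ⟨mem_univ _, hv.2⟩), sum_mul]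
    rw [sum_congr rfl (g := fun _ => Fintype.card (Fin q → J → ZMod 2)) ?_, sum_const, smul_eq_mul]
    intro r hr
    rw [mem_filter] at hr
    rw [← card_fib L hind (r - r₀)]
    congr 2
    ext v
    simp only [mem_filter, mem_univ, true_and]
    constructor
    · rintro ⟨-, h3⟩
      rw [← h3, add_sub_cancel_left]
    · intro h3
      have h4 : r₀ + L v = r := by rw [h3, add_sub_cancel]
      rw [h4]
      exact ⟨hr.2, rfl⟩
  have hc2 := card_alt hALT m
  have h9 : (0 : ℝ) < 2 ^ Fintype.card (Pp (2 * m)) := by positivity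
  have h10 : ((univ.filter fun v : Fin q → J → ZMod 2 =>
      Gv Sp Pc (pt N (mv Jk α β v)) E b).card : ℝ) * 2 ^ Fintype.card (Pp (2 * m)) =
      ((univ.filter fun r : Pp (2 * m) → ZMod 2 => (alt r).det ≠ 0).card : ℝ) *
        (Fintype.card (Fin q → J → ZMod 2) : ℝ) := by
    exact_mod_cast hcount
  rw [hc2] at h10
  refine mul_right_cancel₀ h9.ne' ?_
  rw [h10]
  ring

/-- **the first columns**: few of them are degenerate -/
theorem astep {q m : ℕ} {N : U ⊕ J → U ⊕ J → ZMod 2} {b : U ⊕ J → ZMod 2}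
    {α β γ : Fin q → J} (hβ : Function.Injective β) (hγ : Function.Injective γ)
    (hγβ : ∀ τ τ', γ τ ≠ β τ') (hγα : ∀ τ τ', γ τ ≠ α τ') (hαβ : ∀ τ τ', α τ ≠ β τ')
    (hγP : ∀ τ, Sum.inr (γ τ) ∉ Pc) (hβP : ∀ τ, Sum.inr (β τ) ∉ Pc)
    (h1 : ∀ x, Wk Sp Pc N b x → ∀ j, x j = 0) (hcard : Sp.card = Pc.card + 2 * m)
    (hinj : ∀ s, Zk Sp Pc N b s → (∀ k ∈ Jk, s (Sum.inr k) = 0) → ∀ j, s j = 0) :
    (univ.filter fun a : Fin q → J → ZMod 2 =>
      ¬ ∀ s, Zk Sp Pc (pt N (mv Jk γ β a)) b s →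
        (∀ τ, Ph (pt N (mv Jk γ β a)) b s (Sum.inr (α τ)) +
          Ph (pt N (mv Jk γ β a)) b s (Sum.inr (β τ)) = 0) → ∀ j, s j = 0).card * 2 ^ q ≤
      2 ^ (2 * m) * Fintype.card (Fin q → J → ZMod 2) := by
  set ZS := univ.filter fun s : U ⊕ J → ZMod 2 => Zk Sp Pc N b s ∧ ∃ j, s j ≠ 0 with hZS
  have hZc : ZS.card ≤ 2 ^ (2 * m) := by
    have h2 := card_Z h1
    rw [hcard, pow_add] at h2
    have h3 : Nat.card (ZZ Sp Pc N b) = 2 ^ (2 * m) := by
      have h4 : (0 : ℕ) < 2 ^ Pc.card := by positivity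
      refine Nat.eq_of_mul_eq_mul_right h4 ?_
      rw [h2]
      ring
    rw [← h3, Nat.card_eq_fintype_card]
    have h5 : Fintype.card (ZZ Sp Pc N b) = (univ.filter fun s : U ⊕ J → ZMod 2 =>
        s ∈ ZZ Sp Pc N b).card := Fintype.card_subtype _
    rw [h5]
    refine card_le_card fun s hs => ?_
    rw [hZS, mem_filter] at hs
    rw [mem_filter]
    exact ⟨mem_univ _, hs.2.1⟩
  have hsub : (univ.filter fun a : Fin q → J → ZMod 2 =>
      ¬ ∀ s, Zk Sp Pc (pt N (mv Jk γ β a)) b s →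
        (∀ τ, Ph (pt N (mv Jk γ β a)) b s (Sum.inr (α τ)) +
          Ph (pt N (mv Jk γ β a)) b s (Sum.inr (β τ)) = 0) → ∀ j, s j = 0) ⊆
      ZS.biUnion fun s => univ.filter fun a : Fin q → J → ZMod 2 => (fun τ => pr Jk (a τ) s) =
        fun τ => Ph N b s (Sum.inr (α τ)) + Ph N b s (Sum.inr (β τ)) := by
    intro a ha
    rw [mem_filter] at ha
    obtain ⟨-, ha⟩ := ha
    push Not at ha
    obtain ⟨s, hs, h2, h3⟩ := ha
    rw [mem_biUnion]
    refine ⟨s, ?_, ?_⟩
    · rw [hZS, mem_filter]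
      exact ⟨mem_univ _, (Zk_mv N hγP hβP a b s).1 hs, h3⟩
    · rw [mem_filter]
      refine ⟨mem_univ _, funext fun τ => ?_⟩
      have h4 := h2 τ
      rw [Ph_mv, Ph_mv, ww_off Jk a s (fun τ' => (hγα τ' τ).symm) (fun τ' => hαβ τ τ'),
        ww_β Jk hβ hγβ, add_zero] at h4
      have h5 : ∀ x y w : ZMod 2, x + (y + w) = 0 → w = x + y := by decide
      exact h5 _ _ _ h4
  have hone : ∀ s ∈ ZS, (univ.filter fun a : Fin q → J → ZMod 2 =>
      (fun τ => pr Jk (a τ) s) =
        fun τ => Ph N b s (Sum.inr (α τ)) + Ph N b s (Sum.inr (β τ))).card * 2 ^ q =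
      Fintype.card (Fin q → J → ZMod 2) := by
    intro s hs
    rw [hZS, mem_filter] at hs
    obtain ⟨-, hs, j, hj⟩ := hs
    obtain ⟨k, hk, hsk⟩ : ∃ k ∈ Jk, s (Sum.inr k) ≠ 0 := by
      by_contra hc
      push Not at hc
      exact hj (hinj s hs hc j)
    set L : (Fin q → J → ZMod 2) →ₗ[ZMod 2] (Fin q → ZMod 2) :=
      { toFun := fun a τ => pr Jk (a τ) s
        map_add' := fun a a' => by
          funext τ
          simp only [Pi.add_apply, pr_add]
        map_smul' := fun c a => by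
          funext τ
          simp only [Pi.smul_apply, pr_smul, RingHom.id_apply, smul_eq_mul] } with hL
    have h2 := card_fib L (by
      intro c hc τ
      have h3 := hc (Pi.single τ (Pi.single k 1))
      rw [sum_eq_single τ] at h3
      · have h4 : L (Pi.single τ (Pi.single k 1)) τ = s (Sum.inr k) := by
          show pr Jk ((Pi.single τ (Pi.single k 1) : Fin q → J → ZMod 2) τ) s = _
          rw [Pi.single_eq_same, pr_single hk]
        rw [h4] at h3
        rcases mul_eq_zero.1 h3 with h | h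
        · exact h
        · exact absurd h hsk
      · intro τ' _ h
        have h4 : L (Pi.single τ (Pi.single k 1)) τ' = 0 := by
          show pr Jk ((Pi.single τ (Pi.single k 1) : Fin q → J → ZMod 2) τ') s = _
          rw [Pi.single_eq_of_ne h, pr_zero]
        rw [h4, mul_zero]
      · intro h; exact absurd (mem_univ _) h)
      (fun τ => Ph N b s (Sum.inr (α τ)) + Ph N b s (Sum.inr (β τ)))
    rw [Fintype.card_fin] at h2
    exact h2
  have h2 := (card_le_card hsub).trans card_biUnion_le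
  refine (Nat.mul_le_mul_right _ h2).trans ?_
  rw [sum_mul, sum_congr rfl hone, sum_const, smul_eq_mul]
  exact Nat.mul_le_mul_right _ hZc

end

end Pool.Agent.L0h1.KD
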