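import Pool.Agent.L0h1.KD.LC
import Pool.Agent.N916.GB.Stm
import Pool.Agent.N973.ND.BOX0

/-!
# Project KD (helper1): the first condition, and the rows which matter
-/

set_option autoImplicit false
set_option linter.unusedSectionVars false
set_option linter.unusedVariables false
set_option maxHeartbeats 1000000

open scoped Classical

namespace Pool.Agent.L0h1.KD

open Finset
open Pool.Agent.N973.ND

section
variable {U J : Type} [Fintype U] [Fintype J] [LinearOrder J]

/-- the restriction to the slots of the rational symbols -/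
def rs {J1 : Finset J} (σ : sl J1 → ZMod 2) (e : Pool.Agent.N916.GB.ps J) : ZMod 2 :=
  σ ⟨(e.1, false), by
    unfold sl
    rw [mem_filter]
    refine ⟨mem_univ _, ?_, fun h => Bool.noConfusion h⟩
    have h := e.2
    unfold Pool.Agent.N916.GB.ps at h
    exact (mem_filter.1 h).2⟩

theorem sx_rs {J1 : Finset J} (σ : sl J1 → ZMod 2) :
    Pool.Agent.N916.GB.sx (rs σ) = sx σ false := by
  funext k l
  have hiff : ∀ k l : J, (k, l) ∈ Pool.Agent.N916.GB.ps J ↔ ((k, l), false) ∈ sl J1 := by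
    intro k l
    unfold Pool.Agent.N916.GB.ps sl
    simp
  unfold Pool.Agent.N916.GB.sx sx
  by_cases h : (k, l) ∈ Pool.Agent.N916.GB.ps J
  · rw [dif_pos h, dif_pos ((hiff k l).1 h)]
    rfl
  · rw [dif_neg h, dif_neg fun h' => h ((hiff k l).2 h')]
    by_cases h2 : (l, k) ∈ Pool.Agent.N916.GB.ps J
    · rw [dif_pos h2, dif_pos ((hiff l k).1 h2)]
      rfl
    · rw [dif_neg h2, dif_neg fun h' => h2 ((hiff l k).2 h')]

variable {J1 : Finset J} {Sp Pc : Finset (U ⊕ J)} {u : U ⊕ J → ZMod 2}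
  {N E : U ⊕ J → U ⊕ J → ZMod 2} {m : ℕ}

/-- **few completions do not satisfy the first condition** -/
theorem card_E1 (H : Hyp J1 Sp Pc u N E m) (b : U ⊕ J → ZMod 2) :
    (univ.filter fun σ : Pool.Agent.N916.GB.ps J → ZMod 2 =>
      ¬ E1 Sp Pc (pt N (Pool.Agent.N916.GB.sx σ)) b).card * 4 ^ m ≤
      2 ^ (Pool.Agent.N916.GB.ps J).card := by
  have h1 := card_W H b
  set L : (sl J1 → ZMod 2) →ₗ[ZMod 2] (Pool.Agent.N916.GB.ps J → ZMod 2) :=
    { toFun := fun σ => rs σ
      map_add' := fun σ τ => rfl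
      map_smul' := fun a σ => rfl } with hL
  have hind : ∀ a : Pool.Agent.N916.GB.ps J → ZMod 2, (∀ σ, ∑ ρ, a ρ * L σ ρ = 0) →
      ∀ ρ, a ρ = 0 := by
    intro a ha ρ
    have h2 := ha (fun e => if e.1 = (ρ.1, false) then 1 else 0)
    rw [sum_eq_single ρ] at h2
    · have h3 : L (fun e => if e.1 = (ρ.1, false) then 1 else 0) ρ = 1 := by
        show (if ((ρ.1, false) : (J × J) × Bool) = (ρ.1, false) then (1 : ZMod 2) else 0) = 1
        rw [if_pos rfl]
      rwa [h3, mul_one] at h2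
    · intro ρ' _ h
      have h3 : L (fun e => if e.1 = (ρ.1, false) then 1 else 0) ρ' = 0 := by
        show (if ((ρ'.1, false) : (J × J) × Bool) = (ρ.1, false) then (1 : ZMod 2) else 0) = 0
        rw [if_neg]
        intro h4
        exact h (Subtype.ext (Prod.mk.inj h4).1)
      rw [h3, mul_zero]
    · intro h; exact absurd (mem_univ _) h
  set B := univ.filter fun σ : Pool.Agent.N916.GB.ps J → ZMod 2 =>
      ¬ E1 Sp Pc (pt N (Pool.Agent.N916.GB.sx σ)) b with hB
  have h2 : (univ.filter fun σ : sl J1 → ZMod 2 =>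
      ¬ ∀ x, Wk Sp Pc (pt N (sx σ false)) b x → ∀ j, x j = 0) =
      univ.filter fun σ : sl J1 → ZMod 2 => L σ ∈ B := by
    refine filter_congr fun σ _ => ?_
    rw [hB, mem_filter]
    have h3 : Pool.Agent.N916.GB.sx (L σ) = sx σ false := sx_rs σ
    rw [h3]
    unfold E1
    simp
  have h3 : (univ.filter fun σ : sl J1 → ZMod 2 => L σ ∈ B).card *
      2 ^ (Pool.Agent.N916.GB.ps J).card = B.card * 2 ^ (sl J1).card := by
    rw [card_eq_sum_card_fiberwise (f := fun σ => L σ) (t := B) (by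
        intro σ hσ
        rw [mem_coe, mem_filter] at hσ
        exact mem_coe.2 hσ.2), sum_mul]
    rw [sum_congr rfl (g := fun _ => 2 ^ (sl J1).card) ?_, sum_const, smul_eq_mul]
    intro r hr
    have h4 := card_fib L hind r
    rw [Fintype.card_coe, Fintype.card_fun, ZMod.card, Fintype.card_coe] at h4
    rw [← h4]
    congr 2
    ext σ
    simp only [mem_filter, mem_univ, true_and]
    exact ⟨fun h => h.2, fun h => ⟨by rw [h]; exact hr, h⟩⟩
  rw [h2] at h1
  have h4 : B.card * 4 ^ m * 2 ^ (sl J1).card ≤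
      2 ^ (Pool.Agent.N916.GB.ps J).card * 2 ^ (sl J1).card := by
    calc B.card * 4 ^ m * 2 ^ (sl J1).card = B.card * 2 ^ (sl J1).card * 4 ^ m := by ring
      _ = (univ.filter fun σ : sl J1 → ZMod 2 => L σ ∈ B).card * 4 ^ m *
          2 ^ (Pool.Agent.N916.GB.ps J).card := by rw [← h3]; ring
      _ ≤ 2 ^ (sl J1).card * 2 ^ (Pool.Agent.N916.GB.ps J).card := Nat.mul_le_mul_right _ h1
      _ = _ := by ring
  exact Nat.le_of_mul_le_mul_right h4 (by positivity)

end

section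
variable {V : Type} [Fintype V] {Sp Pc : Finset V} {N N' E E' : V → V → ZMod 2}
  {b b' : V → ZMod 2}

theorem TT_congr (hN : ∀ i ∈ Sp, ∀ j, N i j = N' i j) (hb : ∀ i ∈ Sp, b i = b' i) {i : V}
    (hi : i ∈ Sp) : TT N b i = TT N' b' i := by
  unfold TT
  rw [hb i hi]
  congr 1
  exact sum_congr rfl fun j _ => hN i hi j

theorem Ph_congr (hN : ∀ i ∈ Sp, ∀ j, N i j = N' i j) (hb : ∀ i ∈ Sp, b i = b' i) {s : V → ZMod 2}
    (hs : ∀ i, i ∉ Sp → s i = 0) (j : V) : Ph N b s j = Ph N' b' s j := by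
  unfold Ph
  congr 1
  · refine sum_congr rfl fun i _ => ?_
    by_cases hi : i ∈ Sp
    · rw [hN i hi j]
    · rw [hs i hi, zero_mul, zero_mul]
  · by_cases hj : j ∈ Sp
    · rw [TT_congr hN hb hj]
    · rw [hs j hj, mul_zero, mul_zero]

theorem E1_congr (hN : ∀ i ∈ Sp, ∀ j, N i j = N' i j) (hb : ∀ i ∈ Sp, b i = b' i)
    (x : V → ZMod 2) : Wk Sp Pc N b x ↔ Wk Sp Pc N' b' x := by
  unfold Wk
  refine and_congr_right fun _ => forall_congr' fun i => forall_congr' fun hi => ?_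
  rw [TT_congr hN hb hi]
  have h1 : ∑ j, N i j * x j = ∑ j, N' i j * x j := sum_congr rfl fun j _ => by rw [hN i hi j]
  rw [h1]

theorem Zk_congr (hN : ∀ i ∈ Sp, ∀ j, N i j = N' i j) (hb : ∀ i ∈ Sp, b i = b' i)
    (s : V → ZMod 2) : Zk Sp Pc N b s ↔ Zk Sp Pc N' b' s := by
  unfold Zk
  refine and_congr_right fun hs => forall_congr' fun j => forall_congr' fun hj => ?_
  rw [Ph_congr hN hb hs]

theorem bf_congr (hN : ∀ i ∈ Sp, ∀ j, N i j = N' i j) (hb : ∀ i ∈ Sp, b i = b' i)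
    (hE : ∀ i ∈ Sp, ∀ j ∈ Sp, E i j = E' i j) {y s : V → ZMod 2}
    (hy : ∀ i, i ∉ Sp → y i = 0) (hs : ∀ i, i ∉ Sp → s i = 0) :
    bf N E b y s = bf N' E' b' y s := by
  unfold bf
  congr 1
  · congr 1
    · refine sum_congr rfl fun i _ => ?_
      by_cases hi : i ∈ Sp
      · rw [hb i hi]
      · rw [hs i hi, mul_zero, mul_zero, mul_zero]
    · refine sum_congr rfl fun i _ => sum_congr rfl fun j _ => ?_
      by_cases hi : i ∈ Sp
      · by_cases hj : j ∈ Sp
        · rw [hE i hi j hj]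
        · rw [hs j hj, mul_zero, mul_zero]
      · rw [hy i hi, zero_mul, zero_mul, zero_mul, zero_mul]
  · refine sum_congr rfl fun j _ => ?_
    rw [Ph_congr hN hb hy, Ph_congr hN hb hs]

/-- only the rows of the split primes matter -/
theorem Gv_congr' (hN : ∀ i ∈ Sp, ∀ j, N i j = N' i j) (hb : ∀ i ∈ Sp, b i = b' i)
    (hE : ∀ i ∈ Sp, ∀ j ∈ Sp, E i j = E' i j) : Gv Sp Pc N E b ↔ Gv Sp Pc N' E' b' := by
  unfold Gv
  refine and_congr ?_ ?_
  · refine forall_congr' fun x => ?_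
    rw [E1_congr hN hb]
  · refine forall_congr' fun s => ?_
    rw [Zk_congr hN hb]
    refine forall_congr' fun hs => ?_
    have h1 : (∀ y, Zk Sp Pc N b y → bf N E b y s = 0) ↔
        (∀ y, Zk Sp Pc N' b' y → bf N' E' b' y s = 0) := by
      refine forall_congr' fun y => ?_
      rw [Zk_congr hN hb]
      refine forall_congr' fun hy => ?_
      rw [bf_congr hN hb hE hy.1 hs.1]
    rw [h1]

end

end Pool.Agent.L0h1.KD
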