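import Pool.Agent.L0h4.TA.Core

/-!
# The rank form for the twists `y² = x³ - 35 D² x - 98 D³` of `X_0(49)`
-/

set_option autoImplicit false
set_option maxHeartbeats 4000000
set_option linter.unusedVariables false

open scoped Classical

namespace Pool.Agent.L0h1.KD

open Pool.Agent.Y698 Pool.Agent.Y698.SG Pool.Agent.L0h4.TW Pool.Agent.L0h4.TA
open WeierstrassCurve

/-- the factor at `p` of the incomplete `L`-series -/
noncomputable def tg (a b : ℤ) (s : ℂ) (p : ℕ) : ℂ :=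
  if p.Prime ∧ ¬ ((p : ℤ) ∣ 2 * (-4 * a ^ 3 - 27 * b ^ 2)) then
    (1 - ((p : ℂ) - (Nat.card {q : ZMod p × ZMod p //
        q.2 ^ 2 = q.1 ^ 3 + (a : ZMod p) * q.1 + (b : ZMod p)} : ℂ))
        * (p : ℂ) ^ (-s) + (p : ℂ) ^ (1 - 2 * s))⁻¹
  else 1

/-- the Euler factor at `2` -/
noncomputable def e2 (ε s : ℂ) : ℂ := 1 - ε * (2 : ℂ) ^ (-s) + 2 * ((2 : ℂ) ^ (-s)) ^ 2

lemma e2_diff (ε : ℂ) : Differentiable ℂ (e2 ε) := by
  unfold e2
  have h : Differentiable ℂ fun s : ℂ => (2 : ℂ) ^ (-s) := by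
    intro s
    exact (differentiableAt_id.neg).const_cpow (Or.inl two_ne_zero)
  exact ((differentiable_const _).sub ((differentiable_const _).mul h)).add
    ((differentiable_const _).mul (h.pow 2))

lemma e2_one {ε : ℂ} (h : ε = 1 ∨ ε = -1) : e2 ε 1 ≠ 0 := by
  unfold e2
  rw [Complex.cpow_neg, Complex.cpow_one]
  rcases h with h | h <;> rw [h] <;> norm_num

lemma e2_ne {ε : ℂ} (h : ε = 1 ∨ ε = -1) {s : ℂ} (hs : 3 / 2 < s.re) : e2 ε s ≠ 0 := by
  intro h0
  set x : ℂ := (2 : ℂ) ^ (-s) with hx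
  have hn : ‖x‖ < 1 / 2 := by
    have h1 : ‖x‖ = (2 : ℝ) ^ (-s.re) := by
      rw [hx, show (2 : ℂ) = ((2 : ℝ) : ℂ) by norm_num,
        Complex.norm_cpow_eq_rpow_re_of_pos (by norm_num)]
      rfl
    rw [h1]
    calc (2 : ℝ) ^ (-s.re) < (2 : ℝ) ^ (-1 : ℝ) := by
          apply Real.rpow_lt_rpow_of_exponent_lt (by norm_num)
          linarith
      _ = 1 / 2 := by norm_num [Real.rpow_neg_one]
  have hε : ‖ε‖ = 1 := by rcases h with h | h <;> rw [h] <;> simp
  have h1 : (1 : ℂ) = ε * x - 2 * x ^ 2 := by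
    unfold e2 at h0
    rw [← hx] at h0
    linear_combination h0
  have h2 : (1 : ℝ) ≤ ‖x‖ + 2 * ‖x‖ ^ 2 := by
    calc (1 : ℝ) = ‖(1 : ℂ)‖ := by simp
      _ = ‖ε * x - 2 * x ^ 2‖ := by rw [h1]
      _ ≤ ‖ε * x‖ + ‖2 * x ^ 2‖ := norm_sub_le _ _
      _ = ‖x‖ + 2 * ‖x‖ ^ 2 := by
        rw [norm_mul, norm_mul, norm_pow, hε, one_mul]
        norm_num
  nlinarith [norm_nonneg x]

lemma sq_eq_one_iff_of_side_aux {x : ℂ} (h : x ^ 2 = 1) : x = 1 ∨ x = -1 := by
  have h1 : (x - 1) * (x + 1) = 0 := by linear_combination h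
  rcases mul_eq_zero.1 h1 with h2 | h2
  · left; linear_combination h2
  · right; linear_combination h2

lemma disc_eq (n : ℤ) : 2 * (-4 * (-35 * n ^ 2) ^ 3 - 27 * (-98 * n ^ 3) ^ 2) =
    -(2 ^ 9 * (7 ^ 3 * n ^ 6)) := by ring

/-- the incomplete `L`-series of the twist -/
theorem lfun {S : Finset ℕ} (hS : ∀ q ∈ S, Pool.Agent.L0h4.TW.Od q) {j : ℕ} (hj : ∏ q ∈ S, q = 1 + 4 * j)
    (h7S : 7 ∉ S) {f : ℂ → ℂ} (hf : Differentiable ℂ f)
    (g2 : ∀ z : ℂ, 3 / 2 < z.re → HasProd (fun p : Nat.Primes =>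
      (1 - bc p * ((∏ q ∈ S, qch q (p : ℕ)) * ((p : ℕ) : ℂ) ^ (-z)) +
      ec p * ((∏ q ∈ S, qch q (p : ℕ)) * ((p : ℕ) : ℂ) ^ (-z)) ^ 2)⁻¹) (f z)) :
    ∃ F : ℂ → ℂ, Differentiable ℂ F ∧
      (∀ s : ℂ, (3 : ℝ) / 2 < s.re → HasProd
        (tg (-35 * ((1 + 4 * j : ℕ) : ℤ) ^ 2) (-98 * ((1 + 4 * j : ℕ) : ℤ) ^ 3) s) (F s)) ∧
      (F 1 ≠ 0 ↔ f 1 ≠ 0) := by
  set n : ℤ := ((1 + 4 * j : ℕ) : ℤ) with hn
  set ε : ℕ → ℂ := fun p => ∏ q ∈ S, qch q (p : ℤ) with hε
  have hSn : ∀ q ∈ S, (q : ℤ) ∣ n := by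
    intro q hq
    rw [hn, ← hj]
    exact_mod_cast Finset.dvd_prod_of_mem _ hq
  have hnS : ∀ p : ℕ, p.Prime → (p : ℤ) ∣ n → p ∈ S := by
    intro p hp h
    by_contra h1
    rw [hn, ← hj] at h
    exact not_dvd_prodX hS hp h1 (by exact_mod_cast h)
  have hsq : ∀ p : ℕ, p.Prime → p ∉ S → ε p ^ 2 = 1 := by
    intro p hp hpS
    refine qprod_sq (fun q hq => (hS q hq).pr) fun q hq hd => ?_
    have h1 : q ∣ p := by exact_mod_cast hd
    exact hpS (((Nat.prime_dvd_prime_iff_eq (hS q hq).pr hp).1 h1) ▸ hq)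
  have h2S : 2 ∉ S := by
    intro h
    have h1 := hSn 2 h
    rw [hn] at h1
    omega
  have hε2 : ε 2 = 1 ∨ ε 2 = -1 := sq_eq_one_iff_of_side_aux (hsq 2 Nat.prime_two h2S)
  refine ⟨fun s => f s * e2 (ε 2) s, hf.mul (e2_diff _), ?_, ?_⟩
  · intro s hs
    have h1 := g2 s hs
    have h2 : HasProd (fun p : Nat.Primes => if p = ⟨2, Nat.prime_two⟩ then e2 (ε 2) s else 1)
        (e2 (ε 2) s) := hasProd_ite_eq _ _
    have h3 := h1.mul h2
    have h4 : ∀ p : Nat.Primes, (1 - bc p * (ε p * ((p : ℕ) : ℂ) ^ (-s)) +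
        ec p * (ε p * ((p : ℕ) : ℂ) ^ (-s)) ^ 2)⁻¹ *
        (if p = ⟨2, Nat.prime_two⟩ then e2 (ε 2) s else 1) =
        tg (-35 * n ^ 2) (-98 * n ^ 3) s p := by
      intro P
      have hP : (P = ⟨2, Nat.prime_two⟩) ↔ (P : ℕ) = 2 :=
        ⟨fun h => by rw [h], fun h => Subtype.ext h⟩
      have hp : (P : ℕ).Prime := P.2
      simp only [hP]
      clear hP
      revert hp
      generalize (P : ℕ) = p
      intro hp
      have hpi : Prime (p : ℤ) := Nat.prime_iff_prime_int.1 hp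
      rcases eq_or_ne p 2 with h2 | h2
      · subst h2
        have hR : tg (-35 * n ^ 2) (-98 * n ^ 3) s 2 = 1 := by
          unfold tg
          exact if_neg fun h => h.2 (Dvd.intro _ rfl)
        rw [hR, if_pos rfl]
        have hec : ec 2 = 2 := by
          unfold ec
          norm_num
        have e : 1 - bc 2 * (ε 2 * ((2 : ℕ) : ℂ) ^ (-s)) + ec 2 * (ε 2 * ((2 : ℕ) : ℂ) ^ (-s)) ^ 2 =
            e2 (ε 2) s := by
          unfold e2
          rw [hec, bc_two, mul_pow, hsq 2 Nat.prime_two h2S]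
          push_cast
          ring
        rw [e]
        exact inv_mul_cancel₀ (e2_ne hε2 hs)
      · rw [if_neg h2, mul_one]
        by_cases hb : p = 7 ∨ (p : ℤ) ∣ n
        · have hR : tg (-35 * n ^ 2) (-98 * n ^ 3) s p = 1 := by
            unfold tg
            refine if_neg ?_
            rintro ⟨_, h⟩
            apply h
            rw [disc_eq, dvd_neg]
            rcases hb with h4 | h4
            · subst h4
              exact Dvd.dvd.mul_left (Dvd.dvd.mul_right (dvd_pow (by norm_num) (by norm_num)) _) _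
            · exact Dvd.dvd.mul_left (Dvd.dvd.mul_left (dvd_pow h4 (by norm_num)) _) _
          rw [hR]
          rcases hb with h4 | h4
          · subst h4
            have hb7 : bc 7 = 0 := by
              have := bc_seven 0
              simpa using this
            have he7 : ec 7 = 0 := by unfold ec; exact if_pos rfl
            rw [hb7, he7]
            simp
          · have h5 := hnS p hp h4
            have h6 : ε p = 0 := by
              rw [hε]
              refine Finset.prod_eq_zero h5 ?_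
              unfold qch
              rw [Int.cast_eq_zero]
              have := hp
              have := Fact.mk hp
              rw [jacobiSym.eq_zero_iff_not_coprime]
              simpa using hp.ne_one
            rw [h6]
            simp
        · push Not at hb
          obtain ⟨h7, h3⟩ := hb
          have hpS : p ∉ S := fun h => h3 (hSn p h)
          have g2' : ¬ (p : ℤ) ∣ 2 := by
            intro h
            have : p ∣ 2 := by exact_mod_cast h
            exact h2 ((Nat.prime_dvd_prime_iff_eq hp Nat.prime_two).1 this)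
          have g7' : ¬ (p : ℤ) ∣ 7 := by
            intro h
            have : p ∣ 7 := by exact_mod_cast h
            exact h7 ((Nat.prime_dvd_prime_iff_eq hp (by norm_num)).1 this)
          have hcond : p.Prime ∧ ¬ ((p : ℤ) ∣ 2 * (-4 * (-35 * n ^ 2) ^ 3 - 27 * (-98 * n ^ 3) ^ 2)) := by
            refine ⟨hp, ?_⟩
            rw [disc_eq, dvd_neg]
            intro h
            rcases hpi.dvd_or_dvd h with h5 | h5
            · exact g2' (hpi.dvd_of_dvd_pow h5)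
            · rcases hpi.dvd_or_dvd h5 with h6 | h6
              · exact g7' (hpi.dvd_of_dvd_pow h6)
              · exact h3 (hpi.dvd_of_dvd_pow h6)
          unfold tg
          rw [if_pos hcond]
          have := Fact.mk hp
          have ht := trace_twX (ZMod p) hp h7 one_ne_zero (by rw [Nat.card_zmod, pow_one]) hS hpS hj
          have h2k : (2 : ZMod p) ≠ 0 := by
            intro h
            have h' : ((2 : ℕ) : ZMod p) = 0 := by exact_mod_cast h
            rw [ZMod.natCast_eq_zero_iff] at h'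
            exact h2 ((Nat.prime_dvd_prime_iff_eq hp Nat.prime_two).1 h')
          have hc := card_AP_EX (ZMod p) h2k (j : ℤ)
          have hc' : Nat.card (AP (EX (ZMod p) (j : ZMod p))) = Nat.card {q : ZMod p × ZMod p //
              q.2 ^ 2 = q.1 ^ 3 + ((-35 * n ^ 2 : ℤ) : ZMod p) * q.1 +
                ((-98 * n ^ 3 : ℤ) : ZMod p)} := by
            have e : n = 1 + 4 * (j : ℤ) := by rw [hn]; push_cast; ring
            rw [e, ← hc]
            congr 3
            push_cast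
            rfl
          rw [← hc']
          rw [Nat.card_zmod] at ht
          have hpw : W165.CE.pw (bc p) (ec p) 1 = bc p := rfl
          rw [hpw, pow_one] at ht
          have hec : ec p = (p : ℂ) := by unfold ec; exact if_neg h7
          have h9 : (p : ℂ) ^ (1 - 2 * s) = (p : ℂ) * ((p : ℂ) ^ (-s)) ^ 2 := by
            have hp0 : (p : ℂ) ≠ 0 := by exact_mod_cast hp.ne_zero
            rw [← Complex.cpow_nat_mul, sub_eq_add_neg, Complex.cpow_add _ _ hp0, Complex.cpow_one]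
            congr 2
            push_cast
            ring
          have h10 : ((p : ℂ) - (Nat.card (AP (EX (ZMod p) (j : ZMod p))) : ℂ)) = ε p * bc p := by
            rw [hε]
            push_cast at ht
            exact ht
          rw [h9, h10, hec, mul_pow, hsq p hp hpS]
          congr 1
          ring
    have h5 : HasProd (tg (-35 * n ^ 2) (-98 * n ^ 3) s ∘ ((↑) : {p : ℕ | p.Prime} → ℕ))
        (f s * e2 (ε 2) s) := by
      refine (congrArg (fun g => HasProd g (f s * e2 (ε 2) s)) (funext fun p => ?_)).mp h3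
      exact h4 p
    refine (hasProd_subtype_iff_of_mulSupport_subset ?_).1 h5
    intro m hm
    rw [Function.mem_mulSupport] at hm
    by_contra h6
    apply hm
    unfold tg
    rw [if_neg]
    rintro ⟨h7, _⟩
    exact h6 h7
  · have := e2_one hε2
    constructor
    · intro h h1
      exact h (by
        show f 1 * e2 (ε 2) 1 = 0
        rw [h1, zero_mul])
    · intro h
      exact mul_ne_zero h this

/-- the affine points of the short equation -/
lemma fin_set {j : ℕ} (h : Finite (AX ℚ j).toAffine.Point) :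
    {q : ℚ × ℚ | q.2 ^ 2 = q.1 ^ 3 + ((-35 * ((1 + 4 * j : ℕ) : ℤ) ^ 2 : ℤ) : ℚ) * q.1 +
      ((-98 * ((1 + 4 * j : ℕ) : ℤ) ^ 3 : ℤ) : ℚ)}.Finite := by
  have hD : (1 + 4 * (j : ℚ)) ≠ 0 := by positivity
  have hns : ∀ x y : ℚ, (AX ℚ j).toAffine.Equation x y → (AX ℚ j).toAffine.Nonsingular x y := by
    intro x y hxy
    refine (WeierstrassCurve.Affine.equation_iff_nonsingular_of_Δ_ne_zero ?_).1 hxy
    have e : (AX ℚ j).toAffine.Δ = -343 * (1 + 4 * (j : ℚ)) ^ 6 := EX_Δ ℚ (j : ℚ)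
    rw [e]
    exact mul_ne_zero (by norm_num) (pow_ne_zero _ hD)
  have heq : ∀ q : ℚ × ℚ, q ∈ {q : ℚ × ℚ | q.2 ^ 2 = q.1 ^ 3 +
      ((-35 * ((1 + 4 * j : ℕ) : ℤ) ^ 2 : ℤ) : ℚ) * q.1 +
      ((-98 * ((1 + 4 * j : ℕ) : ℤ) ^ 3 : ℤ) : ℚ)} →
      (AX ℚ j).toAffine.Equation ((q.1 + (1 + 4 * j)) / 4) ((q.2 - (q.1 + (1 + 4 * j))) / 8) := by
    rintro ⟨x, y⟩ hq
    simp only [Set.mem_setOf_eq] at hq
    push_cast at hq
    rw [WeierstrassCurve.Affine.equation_iff]
    unfold AX EX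
    simp only
    linear_combination (1 / 64) * hq
  rw [← Set.finite_coe_iff]
  refine Finite.of_injective (β := (AX ℚ j).toAffine.Point)
    (fun q => Affine.Point.some _ _ (hns _ _ (heq q.1 q.2))) ?_
  rintro ⟨⟨x, y⟩, hq⟩ ⟨⟨x', y'⟩, hq'⟩ h1
  simp only [Affine.Point.some.injEq] at h1
  obtain ⟨h2, h3⟩ := h1
  have hx : x = x' := by linarith
  have hy : y = y' := by linarith
  subst hx hy
  rfl

/-- the points of the short equation are finitely many -/
theorem fin_short {j : ℕ} (h : Finite (AX ℚ j).toAffine.Point) :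
    Finite (WeierstrassCurve.Affine.Point (WeierstrassCurve.toAffine
      ({ a₁ := 0, a₂ := 0, a₃ := 0, a₄ := ((-35 * ((1 + 4 * j : ℕ) : ℤ) ^ 2 : ℤ) : ℚ),
         a₆ := ((-98 * ((1 + 4 * j : ℕ) : ℤ) ^ 3 : ℤ) : ℚ) } : WeierstrassCurve ℚ))) := by
  have hf := (fin_set h).to_subtype
  generalize ((-35 * ((1 + 4 * j : ℕ) : ℤ) ^ 2 : ℤ) : ℚ) = a at hf ⊢
  generalize ((-98 * ((1 + 4 * j : ℕ) : ℤ) ^ 3 : ℤ) : ℚ) = b at hf ⊢
  let g : WeierstrassCurve.Affine.Point (WeierstrassCurve.toAffine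
      ({ a₁ := 0, a₂ := 0, a₃ := 0, a₄ := a, a₆ := b } : WeierstrassCurve ℚ)) →
      Option {q : ℚ × ℚ | q.2 ^ 2 = q.1 ^ 3 + a * q.1 + b} := fun P =>
    match P with
    | .zero => none
    | .some x y hxy => some ⟨(x, y), by
        have h1 := (WeierstrassCurve.Affine.equation_iff _ _).1 hxy.1
        simp only at h1
        show y ^ 2 = x ^ 3 + a * x + b
        linear_combination h1⟩
  refine Finite.of_injective g ?_
  intro P Q hPQ
  rcases P with _ | ⟨x, y, hxy⟩ <;> rcases Q with _ | ⟨x', y', hxy'⟩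
  · rfl
  · simp [g] at hPQ
  · simp [g] at hPQ
  · simp only [g, Option.some.injEq, Subtype.mk.injEq, Prod.mk.injEq] at hPQ
    obtain ⟨rfl, rfl⟩ := hPQ
    rfl

theorem finrank_zero {G : Type} [AddCommGroup G] (h : Finite G) : Module.finrank ℤ G = 0 := by
  have h1 : Module.rank ℤ G = 0 := by
    rw [rank_eq_zero_iff]
    intro x
    have h2 : IsOfFinAddOrder x := isOfFinAddOrder_of_finite x
    obtain ⟨n, hn, hx⟩ := isOfFinAddOrder_iff_nsmul_eq_zero.1 h2
    exact ⟨n, by exact_mod_cast hn.ne', by exact_mod_cast hx⟩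
  rw [Module.finrank, h1, map_zero]

/-- the entire function and its value at `1` -/
theorem main_val {D : ℕ} (h : Adm D) {j : ℕ} (hj' : D = 1 + 4 * j) :
    ∃ f : ℂ → ℂ, Differentiable ℂ f ∧
      (∀ z : ℂ, 3 / 2 < z.re → HasProd (fun p : Nat.Primes =>
      (1 - bc p * ((∏ q ∈ QD D ∪ PD D, qch q (p : ℕ)) * ((p : ℕ) : ℂ) ^ (-z)) +
      ec p * ((∏ q ∈ QD D ∪ PD D, qch q (p : ℕ)) * ((p : ℕ) : ℂ) ^ (-z)) ^ 2)⁻¹) (f z)) ∧
      ((mD D).det ≠ 0 → f 1 ≠ 0) := by
  classical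
  obtain ⟨r, hr, hrD⟩ := exists_aux D h.sf.ne_zero
  have hrf : Fact r.Prime := ⟨hr.pr⟩
  have hM : IsCyclotomicExtension {r} ℚ (CyclotomicField r ℚ) := cyc_inst r
  obtain ⟨ϖ, hc⟩ := exists_choice h.p
  have hd := h.dt hc
  have hj : ∏ q ∈ QD D ∪ PD D, q = 1 + 4 * j := h.prod.trans hj'
  have hn : Module.finrank ℚ ℚ = 2 ^ 0 := by rw [Module.finrank_self, pow_zero]
  have hrS : r ∉ QD D ∪ PD D := by
    rw [union_QP]
    exact fun h1 => hrD (Nat.dvd_of_mem_primeFactors h1)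
  have hns := ns_iff hd h.prod
  obtain ⟨L, Ω, hL⟩ := exists_LD
  obtain ⟨F, g1, g2, g4⟩ := val_X hd (by omega)
  refine ⟨F, g1, g2, fun hdet h0 => ?_⟩
  rw [← hns] at hdet
  have h2 := lseries_oneX (CyclotomicField r ℚ) ℚ hn hr hd.od hrS hj g2
  have hreal : (starRingEnd ℂ) (F 1) = F 1 := conj_val g1 (fun k => (AX ℚ j).LFunction k) h2
  refine exists_val2 fun Γ _ v hv => ?_
  have k1 := val_allD (N := 1) hreal hL (fun Γ _ v hv => by
    rw [pow_one]
    exact (g4 Γ v L Ω hL hv).1 hdet) v hv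
  have h20 : v 2 ≠ 0 := (v.ne_zero_iff).2 two_ne_zero
  have hΩ : v Ω ≠ 0 := (v.ne_zero_iff).2 hL.lat.ne
  rw [h0, map_zero, mul_zero] at k1
  exact mul_ne_zero (pow_ne_zero _ h20) (pow_ne_zero _ hΩ) k1.symm

/-- **the rank form for the twist** -/
theorem rank_form {D : ℕ} (h : Adm D) (hdet : (mD D).det ≠ 0) :
    ∃ F : ℂ → ℂ, Differentiable ℂ F ∧
      (∀ s : ℂ, (3 : ℝ) / 2 < s.re → HasProd
        (tg (-35 * (D : ℤ) ^ 2) (-98 * (D : ℤ) ^ 3) s) (F s)) ∧
      F 1 ≠ 0 ∧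
      Finite (WeierstrassCurve.Affine.Point (WeierstrassCurve.toAffine
      ({ a₁ := 0, a₂ := 0, a₃ := 0, a₄ := ((-35 * (D : ℤ) ^ 2 : ℤ) : ℚ),
         a₆ := ((-98 * (D : ℤ) ^ 3 : ℤ) : ℚ) } : WeierstrassCurve ℚ))) := by
  classical
  obtain ⟨j, hj'⟩ : ∃ j, D = 1 + 4 * j := ⟨D / 4, by have := h.m4; omega⟩
  obtain ⟨f, h1, h2, h3⟩ := main_val h hj'
  obtain ⟨-, -, -, c4, -⟩ := coreX h hj'
  obtain ⟨ϖ, hc⟩ := exists_choice h.p
  have hd := h.dt hc
  have h7S : 7 ∉ QD D ∪ PD D := by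
    rw [union_QP]
    exact fun h4 => h.n7 (Nat.dvd_of_mem_primeFactors h4)
  obtain ⟨F, k1, k2, k3⟩ := lfun hd.od (h.prod.trans hj') h7S h1 h2
  subst hj'
  exact ⟨F, k1, k2, k3.2 (h3 hdet), fin_short (c4 hdet).1⟩

end Pool.Agent.L0h1.KD
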